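import Pool.Agent.N183.U8.Stm

/-!
# GS/Bsl: an irreducible linear Lie algebra with a rank one nilpotent element and without a
semi-invariant form contains the special linear Lie algebra
-/

set_option autoImplicit false

namespace Pool.Agent.N31.GSBsl

open Module Pool.Agent.N183.U8

variable {U : Type} [AddCommGroup U] [Module ℂ U]

/-- the operator `v ↦ φ(v) x` -/
def tp (x : U) (φ : U →ₗ[ℂ] ℂ) : End ℂ U := φ.smulRight x

@[simp] lemma tp_apply (x : U) (φ : U →ₗ[ℂ] ℂ) (v : U) : tp x φ v = φ v • x := rfl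

lemma tp_smul_right (c : ℂ) (x : U) (φ : U →ₗ[ℂ] ℂ) : tp x (c • φ) = c • tp x φ := by
  ext v; simp [mul_smul]

lemma tp_smul_left (c : ℂ) (x : U) (φ : U →ₗ[ℂ] ℂ) : tp (c • x) φ = c • tp x φ := by
  ext v; simp [smul_smul, mul_comm]

lemma tp_add_right (x : U) (φ ψ : U →ₗ[ℂ] ℂ) : tp x (φ + ψ) = tp x φ + tp x ψ := by
  ext v; simp [add_smul]

lemma tp_add_left (x y : U) (φ : U →ₗ[ℂ] ℂ) : tp (x + y) φ = tp x φ + tp y φ := by
  ext v; simp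

variable {L : Submodule ℂ (End ℂ U)}

lemma conjD (hb : Br L) {D : End ℂ U} (hD : D ∈ L) (h1 : D * D = 1) {x : U} {φ : U →ₗ[ℂ] ℂ}
    (h : tp x φ ∈ L) : tp (D x) (φ.comp D) ∈ L := by
  have hDD : ∀ v, D (D v) = v := fun v => by
    have := congrArg (fun T : End ℂ U => T v) h1
    simpa using this
  have e : tp (D x) (φ.comp D) = tp x φ - (1 / 2 : ℂ) •
      (D * (D * tp x φ - tp x φ * D) - (D * tp x φ - tp x φ * D) * D) := by
    ext v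
    simp [hDD]
    module
  rw [e]
  exact L.sub_mem h (L.smul_mem _ (hb _ hD _ (hb _ hD _ h)))

lemma br2 (hb : Br L) {x y : U} {φ ψ : U →ₗ[ℂ] ℂ} (h : tp x φ ∈ L) (h' : tp y ψ ∈ L)
    (h0 : ψ x = 0) (h1 : φ y ≠ 0) : tp x ψ ∈ L := by
  have e : tp x ψ = (φ y)⁻¹ • (tp x φ * tp y ψ - tp y ψ * tp x φ) := by
    ext v
    simp [h0, smul_smul]
    rw [show (φ y)⁻¹ * (ψ v * φ y) = ψ v by field_simp]
  rw [e]
  exact L.smul_mem _ (hb _ h _ h')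

/-- the functionals `φ` with `x ⊗ φ ∈ L` and `φ(x) = 0` -/
def Ax (L : Submodule ℂ (End ℂ U)) (x : U) : Submodule ℂ (U →ₗ[ℂ] ℂ) where
  carrier := {φ | tp x φ ∈ L ∧ φ x = 0}
  zero_mem' := by
    refine ⟨?_, by simp⟩
    have : tp x (0 : U →ₗ[ℂ] ℂ) = 0 := by ext v; simp
    rw [this]; exact L.zero_mem
  add_mem' := by
    rintro φ ψ ⟨h1, h2⟩ ⟨h3, h4⟩
    refine ⟨?_, by simp [h2, h4]⟩
    rw [tp_add_right]; exact L.add_mem h1 h3
  smul_mem' := by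
    rintro c φ ⟨h1, h2⟩
    refine ⟨?_, by simp [h2]⟩
    rw [tp_smul_right]; exact L.smul_mem _ h1

lemma mem_Ax {x : U} {φ : U →ₗ[ℂ] ℂ} : φ ∈ Ax L x ↔ tp x φ ∈ L ∧ φ x = 0 := Iff.rfl

section

variable [FiniteDimensional ℂ U] {S : Set (End ℂ U)}

/-- the existence of a pair with both scalar products different from zero -/
lemma exists_pair (hS1 : ∀ D ∈ S, D * D = 1) (hSL : ∀ D ∈ S, D ∈ L) (hb : Br L)
    (hirr : ∀ W : Submodule ℂ U, (∀ D ∈ S, ∀ w ∈ W, D w ∈ W) → W = ⊥ ∨ W = ⊤)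
    {x₀ : U} {φ₀ : U →ₗ[ℂ] ℂ} (hx₀ : x₀ ≠ 0) (hφ₀ : φ₀ ≠ 0) (h₀ : φ₀ ∈ Ax L x₀) :
    ∃ (x y : U) (φ ψ : U →ₗ[ℂ] ℂ), φ ∈ Ax L x ∧ ψ ∈ Ax L y ∧ φ y = 1 ∧ ψ x = 1 := by
  -- the points
  have key : ∀ φ : U →ₗ[ℂ] ℂ, φ ≠ 0 → ∃ y, Ax L y ≠ ⊥ ∧ φ y ≠ 0 := by
    intro φ hφ
    by_contra hc
    push Not at hc
    set W : Submodule ℂ U := Submodule.span ℂ {y | Ax L y ≠ ⊥} with hW
    have hst : ∀ D ∈ S, ∀ w ∈ W, D w ∈ W := by
      intro D hD w hw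
      induction hw using Submodule.span_induction with
      | mem y hy =>
        refine Submodule.subset_span ?_
        rw [Set.mem_ofPred_eq, Submodule.ne_bot_iff] at hy ⊢
        obtain ⟨θ, hθ, hθ0⟩ := hy
        have hDD : ∀ v, D (D v) = v := fun v => by
          have := congrArg (fun T : End ℂ U => T v) (hS1 D hD)
          simpa using this
        refine ⟨θ.comp D, ⟨conjD hb (hSL D hD) (hS1 D hD) hθ.1, ?_⟩, ?_⟩
        · simp [hDD, hθ.2]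
        · intro h
          apply hθ0
          ext v
          have := congrArg (fun T : U →ₗ[ℂ] ℂ => T (D v)) h
          simpa [hDD] using this
      | zero => simp
      | add a b _ _ ha hb' => rw [map_add]; exact W.add_mem ha hb'
      | smul c a _ ha => rw [map_smul]; exact W.smul_mem _ ha
    have hx₀W : x₀ ∈ W := by
      refine Submodule.subset_span ?_
      rw [Set.mem_ofPred_eq, Submodule.ne_bot_iff]
      exact ⟨φ₀, h₀, hφ₀⟩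
    rcases hirr W hst with h | h
    · rw [h] at hx₀W
      exact hx₀ (by simpa using hx₀W)
    · apply hφ
      have hle : W ≤ LinearMap.ker φ := by
        rw [hW, Submodule.span_le]
        intro y hy
        exact hc y hy
      rw [h] at hle
      exact LinearMap.ker_eq_top.mp (top_le_iff.mp hle)
  by_contra hno
  -- the minimal point
  have hne : ∃ n : ℕ, ∃ x, Ax L x ≠ ⊥ ∧ finrank ℂ (Ax L x) = n := ⟨_, x₀, by
    rw [Submodule.ne_bot_iff]; exact ⟨φ₀, h₀, hφ₀⟩, rfl⟩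
  classical
  obtain ⟨x, hx, hxn⟩ := Nat.find_spec hne
  have hmin : ∀ y, Ax L y ≠ ⊥ → finrank ℂ (Ax L x) ≤ finrank ℂ (Ax L y) := by
    intro y hy
    rw [hxn]
    exact Nat.find_min' hne ⟨y, hy, rfl⟩
  obtain ⟨φ, hφ, hφ0⟩ := (Submodule.ne_bot_iff _).mp hx
  obtain ⟨y, hy, hφy⟩ := key φ hφ0
  have hle : Ax L y ≤ Ax L x := by
    intro ψ hψ
    have hψx : ψ x = 0 := by
      by_contra hψx
      apply hno
      refine ⟨x, y, (φ y)⁻¹ • φ, (ψ x)⁻¹ • ψ, (Ax L x).smul_mem _ hφ, (Ax L y).smul_mem _ hψ, ?_, ?_⟩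
      · simp [hφy]
      · simp [hψx]
    exact ⟨br2 hb hφ.1 hψ.1 hψx hφy, hψx⟩
  have heq : Ax L y = Ax L x := Submodule.eq_of_le_of_finrank_le hle (hmin y hy)
  have : φ ∈ Ax L y := by rw [heq]; exact hφ
  exact hφy this.2

end


/-- the set `𝒲` of pairs `(u, α)`, `u ∈ ker φ ∩ ker ψ`, `α(x) = α(y) = 0`, with
`u ⊗ φ + x ⊗ α ∈ L` -/
def Wm (L : Submodule ℂ (End ℂ U)) (x y : U) (φ ψ : U →ₗ[ℂ] ℂ) :
    Submodule ℂ (U × (U →ₗ[ℂ] ℂ)) where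
  carrier := {p | φ p.1 = 0 ∧ ψ p.1 = 0 ∧ p.2 x = 0 ∧ p.2 y = 0 ∧ tp p.1 φ + tp x p.2 ∈ L}
  zero_mem' := by
    refine ⟨by simp, by simp, by simp, by simp, ?_⟩
    have : tp (0 : U × (U →ₗ[ℂ] ℂ)).1 φ + tp x (0 : U × (U →ₗ[ℂ] ℂ)).2 = 0 := by ext v; simp
    rw [this]; exact L.zero_mem
  add_mem' := by
    rintro p q ⟨h1, h2, h3, h4, h5⟩ ⟨k1, k2, k3, k4, k5⟩
    refine ⟨by simp [h1, k1], by simp [h2, k2], by simp [h3, k3], by simp [h4, k4], ?_⟩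
    have : tp (p + q).1 φ + tp x (p + q).2 = (tp p.1 φ + tp x p.2) + (tp q.1 φ + tp x q.2) := by
      rw [Prod.fst_add, Prod.snd_add, tp_add_left, tp_add_right]; abel
    rw [this]; exact L.add_mem h5 k5
  smul_mem' := by
    rintro c p ⟨h1, h2, h3, h4, h5⟩
    refine ⟨by simp [h1], by simp [h2], by simp [h3], by simp [h4], ?_⟩
    have : tp (c • p).1 φ + tp x (c • p).2 = c • (tp p.1 φ + tp x p.2) := by
      rw [Prod.smul_fst, Prod.smul_snd, tp_smul_left, tp_smul_right, smul_add]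
    rw [this]; exact L.smul_mem _ h5

lemma mem_Wm {x y : U} {φ ψ : U →ₗ[ℂ] ℂ} {u : U} {α : U →ₗ[ℂ] ℂ} :
    (u, α) ∈ Wm L x y φ ψ ↔ φ u = 0 ∧ ψ u = 0 ∧ α x = 0 ∧ α y = 0 ∧ tp u φ + tp x α ∈ L := Iff.rfl

/-- the projection onto `ker φ ∩ ker ψ` -/
def pr (x y : U) (φ ψ : U →ₗ[ℂ] ℂ) : End ℂ U := 1 - tp x ψ - tp y φ

lemma pr_apply (x y : U) (φ ψ : U →ₗ[ℂ] ℂ) (v : U) : pr x y φ ψ v = v - ψ v • x - φ v • y := rfl

structure Dt (L : Submodule ℂ (End ℂ U)) (x y : U) (φ ψ : U →ₗ[ℂ] ℂ) : Prop where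
  hb : Br L
  hE : tp x φ ∈ L
  hF : tp y ψ ∈ L
  hφx : φ x = 0
  hψy : ψ y = 0
  hφy : φ y = 1
  hψx : ψ x = 1

section

variable {x y : U} {φ ψ : U →ₗ[ℂ] ℂ}

lemma Dt.hH (h : Dt L x y φ ψ) : tp x ψ - tp y φ ∈ L := by
  have e : tp x ψ - tp y φ = tp x φ * tp y ψ - tp y ψ * tp x φ := by
    ext v
    simp [h.hφy, h.hψx]
  rw [e]; exact h.hb _ h.hE _ h.hF

lemma Dt.w1 (h : Dt L x y φ ψ) {A : End ℂ U} (hA : A ∈ L) :
    (pr x y φ ψ (A x), -(φ.comp (A.comp (pr x y φ ψ)))) ∈ Wm L x y φ ψ := by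
  rw [mem_Wm]
  refine ⟨?_, ?_, ?_, ?_, ?_⟩
  · simp [pr_apply, h.hφx, h.hφy]
  · simp [pr_apply, h.hψx, h.hψy]
  · simp [pr_apply, h.hψx, h.hφx]
  · simp [pr_apply, h.hψy, h.hφy]
  · have e : tp (pr x y φ ψ (A x)) φ + tp x (-(φ.comp (A.comp (pr x y φ ψ)))) =
        (φ (A x)) • (tp x ψ - tp y φ) + (φ (A y) - ψ (A x)) • tp x φ -
          (tp x φ * A - A * tp x φ) := by
      ext v
      simp [pr_apply]
      module
    rw [e]
    exact L.sub_mem (L.add_mem (L.smul_mem _ h.hH) (L.smul_mem _ h.hE)) (h.hb _ h.hE _ hA)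

lemma Dt.w2 (h : Dt L x y φ ψ) {A : End ℂ U} (hA : A ∈ L) :
    (pr x y φ ψ (A y), ψ.comp (A.comp (pr x y φ ψ))) ∈ Wm L x y φ ψ := by
  rw [mem_Wm]
  refine ⟨?_, ?_, ?_, ?_, ?_⟩
  · simp [pr_apply, h.hφx, h.hφy]
  · simp [pr_apply, h.hψx, h.hψy]
  · simp [pr_apply, h.hψx, h.hφx]
  · simp [pr_apply, h.hψy, h.hφy]
  · have e : tp (pr x y φ ψ (A y)) φ + tp x (ψ.comp (A.comp (pr x y φ ψ))) =
        tp x φ * (tp y ψ * A - A * tp y ψ) - (tp y ψ * A - A * tp y ψ) * tp x φ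
          - (ψ (A x) - φ (A y)) • (tp x ψ - tp y φ) - (2 * ψ (A y)) • tp x φ := by
      ext v
      simp [pr_apply, h.hφx, h.hψy, h.hφy, h.hψx]
      module
    rw [e]
    exact L.sub_mem (L.sub_mem (h.hb _ h.hE _ (h.hb _ h.hF _ hA)) (L.smul_mem _ h.hH))
      (L.smul_mem _ h.hE)

/-- the other embedding of `𝒲` -/
lemma Dt.w0 (h : Dt L x y φ ψ) {u : U} {α : U →ₗ[ℂ] ℂ} (hu : (u, α) ∈ Wm L x y φ ψ) :
    tp y α - tp u ψ ∈ L := by
  obtain ⟨h1, h2, h3, h4, h5⟩ := mem_Wm.mp hu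
  have e : tp y α - tp u ψ = tp y ψ * (tp u φ + tp x α) - (tp u φ + tp x α) * tp y ψ := by
    ext v
    simp [h2, h4, h.hφy, h.hψx]
  rw [e]
  exact h.hb _ h.hF _ h5

lemma Dt.w3 (h : Dt L x y φ ψ) {u u' w : U} {α α' γ : U →ₗ[ℂ] ℂ}
    (hu : (u, α) ∈ Wm L x y φ ψ) (hu' : (u', α') ∈ Wm L x y φ ψ) (hw : (w, γ) ∈ Wm L x y φ ψ) :
    (α' w • u + α w • u' + α' u • w, -(α u' • γ + γ u • α' + γ u' • α)) ∈ Wm L x y φ ψ := by
  obtain ⟨h1, h2, h3, h4, h5⟩ := mem_Wm.mp hu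
  obtain ⟨k1, k2, k3, k4, k5⟩ := mem_Wm.mp hu'
  obtain ⟨l1, l2, l3, l4, l5⟩ := mem_Wm.mp hw
  rw [mem_Wm]
  refine ⟨by simp [h1, k1, l1], by simp [h2, k2, l2], by simp [h3, k3, l3],
    by simp [h4, k4, l4], ?_⟩
  have hG := h.hb _ h5 _ (h.w0 hu')
  have hR := h.hb _ hG _ l5
  have e : tp (α' w • u + α w • u' + α' u • w) φ + tp x (-(α u' • γ + γ u • α' + γ u' • α)) =
      (((tp u φ + tp x α) * (tp y α' - tp u' ψ) - (tp y α' - tp u' ψ) * (tp u φ + tp x α)) *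
        (tp w φ + tp x γ) - (tp w φ + tp x γ) * ((tp u φ + tp x α) * (tp y α' - tp u' ψ) -
          (tp y α' - tp u' ψ) * (tp u φ + tp x α))) := by
    ext v
    simp [h1, h2, h3, h4, k1, k2, k3, k4, l1, l2, l3, l4, h.hφx, h.hψy, h.hφy, h.hψx]
    module
  rw [e]
  exact hR

lemma Dt.pr_eq (v : U) : v = ψ v • x + φ v • y + pr x y φ ψ v := by
  rw [pr_apply]; abel

lemma pr_of {v : U} (h1 : φ v = 0) (h2 : ψ v = 0) : pr x y φ ψ v = v := by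
  rw [pr_apply, h1, h2]; simp

lemma Dt.pr_x (h : Dt L x y φ ψ) : pr x y φ ψ x = 0 := by
  rw [pr_apply, h.hφx, h.hψx]; simp

lemma Dt.pr_y (h : Dt L x y φ ψ) : pr x y φ ψ y = 0 := by
  rw [pr_apply, h.hφy, h.hψy]; simp

lemma Dt.φpr (h : Dt L x y φ ψ) (v : U) : φ (pr x y φ ψ v) = 0 := by
  simp [pr_apply, h.hφx, h.hφy]

lemma Dt.ψpr (h : Dt L x y φ ψ) (v : U) : ψ (pr x y φ ψ v) = 0 := by
  simp [pr_apply, h.hψx, h.hψy]

/-- a functional vanishing at `x` and `y` -/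
lemma Dt.app (_h : Dt L x y φ ψ) {α : U →ₗ[ℂ] ℂ} (h1 : α x = 0) (h2 : α y = 0) (v : U) :
    α (pr x y φ ψ v) = α v := by
  simp [pr_apply, h1, h2]

lemma Dt.w6 (h : Dt L x y φ ψ) {A : End ℂ U} (hA : A ∈ L) {u : U} {α : U →ₗ[ℂ] ℂ}
    (hu : (u, α) ∈ Wm L x y φ ψ) :
    (pr x y φ ψ (A u) - φ (A y) • u, ψ (A x) • α - α.comp (A.comp (pr x y φ ψ))) ∈
      Wm L x y φ ψ := by
  obtain ⟨h1, h2, h3, h4, h5⟩ := mem_Wm.mp hu
  have := h.w2 (h.hb _ hA _ h5)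
  convert this using 2
  · simp [h.hφy, h4, h.pr_x, pr_of h1 h2]
  · ext v
    simp [h.φpr, h2, h.hψx, h.app h3 h4, mul_comm]

lemma Dt.w4 (h : Dt L x y φ ψ) {S : Set (End ℂ U)} (hSL : ∀ D ∈ S, D ∈ L)
    (hirr : ∀ W : Submodule ℂ U, (∀ D ∈ S, ∀ w ∈ W, D w ∈ W) → W = ⊥ ∨ W = ⊤)
    {u : U} (h1 : φ u = 0) (h2 : ψ u = 0) : ∃ α, (u, α) ∈ Wm L x y φ ψ := by
  set W₁ : Submodule ℂ U := (Wm L x y φ ψ).map (LinearMap.fst ℂ U (U →ₗ[ℂ] ℂ)) with hW₁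
  have hmem : ∀ {a : U} {α : U →ₗ[ℂ] ℂ}, (a, α) ∈ Wm L x y φ ψ → a ∈ W₁ := by
    intro a α ha
    exact ⟨(a, α), ha, rfl⟩
  set U' : Submodule ℂ U := W₁.comap (pr x y φ ψ) with hU'
  have hst : ∀ D ∈ S, ∀ w ∈ U', D w ∈ U' := by
    intro D hD w hw
    rw [hU', Submodule.mem_comap] at hw ⊢
    obtain ⟨⟨w', α⟩, hwα, hw'⟩ := hw
    have hw'' : w' = pr x y φ ψ w := hw'
    subst hw''
    have e : pr x y φ ψ (D w) = ψ w • pr x y φ ψ (D x) + φ w • pr x y φ ψ (D y) +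
        pr x y φ ψ (D (pr x y φ ψ w)) := by
      conv_lhs => rw [Dt.pr_eq (x := x) (y := y) (φ := φ) (ψ := ψ) w]
      simp
    rw [e]
    refine W₁.add_mem (W₁.add_mem (W₁.smul_mem _ (hmem (h.w1 (hSL D hD))))
      (W₁.smul_mem _ (hmem (h.w2 (hSL D hD))))) ?_
    have h6 := hmem (h.w6 (hSL D hD) hwα)
    have := W₁.add_mem h6 (W₁.smul_mem (φ (D y)) (hmem hwα))
    simpa using this
  rcases hirr U' hst with h' | h'
  · exfalso
    have hx : x ∈ U' := by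
      rw [hU', Submodule.mem_comap, h.pr_x]; exact W₁.zero_mem
    rw [h'] at hx
    have hx0 : x = 0 := by simpa using hx
    have := h.hψx
    rw [hx0] at this
    simp at this
  · have hu : u ∈ U' := by rw [h']; trivial
    rw [hU', Submodule.mem_comap, pr_of h1 h2] at hu
    obtain ⟨⟨u', α⟩, huα, hu'⟩ := hu
    have hu'' : u' = u := hu'
    subst hu''
    exact ⟨α, huα⟩

lemma Dt.w5 (h : Dt L x y φ ψ) {S : Set (End ℂ U)} (hSL : ∀ D ∈ S, D ∈ L)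
    (hirr : ∀ W : Submodule ℂ U, (∀ D ∈ S, ∀ w ∈ W, D w ∈ W) → W = ⊥ ∨ W = ⊤)
    {u : U} (h1 : φ u = 0) (h2 : ψ u = 0)
    (h3 : ∀ (u' : U) (α' : U →ₗ[ℂ] ℂ), (u', α') ∈ Wm L x y φ ψ → α' u = 0) : u = 0 := by
  set K : Submodule ℂ U := {
    carrier := {v | φ v = 0 ∧ ψ v = 0 ∧
      ∀ (u' : U) (α' : U →ₗ[ℂ] ℂ), (u', α') ∈ Wm L x y φ ψ → α' v = 0}
    zero_mem' := by simp
    add_mem' := by
      rintro a b ⟨h1, h2, h3⟩ ⟨k1, k2, k3⟩
      refine ⟨by simp [h1, k1], by simp [h2, k2], fun u' α' hu' => by simp [h3 _ _ hu', k3 _ _ hu']⟩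
    smul_mem' := by
      rintro c a ⟨h1, h2, h3⟩
      refine ⟨by simp [h1], by simp [h2], fun u' α' hu' => by simp [h3 _ _ hu']⟩ } with hK
  have hst : ∀ D ∈ S, ∀ w ∈ K, D w ∈ K := by
    rintro D hD v ⟨k1, k2, k3⟩
    have hpv := pr_of (x := x) (y := y) k1 k2
    refine ⟨?_, ?_, ?_⟩
    · have := k3 _ _ (h.w1 (hSL D hD))
      simpa [hpv] using this
    · have := k3 _ _ (h.w2 (hSL D hD))
      simpa [hpv] using this
    · intro u' α' hu'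
      have := k3 _ _ (h.w6 (hSL D hD) hu')
      simpa [hpv, k3 _ _ hu'] using this
  rcases hirr K hst with h' | h'
  · have : u ∈ K := ⟨h1, h2, h3⟩
    rw [h'] at this
    simpa using this
  · exfalso
    have : x ∈ K := by rw [h']; trivial
    have h4 := this.2.1
    rw [h.hψx] at h4
    exact one_ne_zero h4

/-- Case A1 -/
lemma Dt.caseA1 (h : Dt L x y φ ψ) {S : Set (End ℂ U)} (hSL : ∀ D ∈ S, D ∈ L)
    (hirr : ∀ W : Submodule ℂ U, (∀ D ∈ S, ∀ w ∈ W, D w ∈ W) → W = ⊥ ∨ W = ⊤)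
    {u : U} (hu0 : u ≠ 0) (hu : (u, (0 : U →ₗ[ℂ] ℂ)) ∈ Wm L x y φ ψ) :
    ∀ (w : U) (γ : U →ₗ[ℂ] ℂ), (w, γ) ∈ Wm L x y φ ψ → (w, (0 : U →ₗ[ℂ] ℂ)) ∈ Wm L x y φ ψ := by
  have c1 : ∀ (w : U) (γ : U →ₗ[ℂ] ℂ), (w, γ) ∈ Wm L x y φ ψ → γ u ≠ 0 →
      (w, (0 : U →ₗ[ℂ] ℂ)) ∈ Wm L x y φ ψ := by
    intro w γ hw hγ
    have h3 := h.w3 hu hw hw
    have h4 := (Wm L x y φ ψ).smul_mem (2 * γ u)⁻¹ ((Wm L x y φ ψ).sub_mem
      ((Wm L x y φ ψ).add_mem h3 ((Wm L x y φ ψ).smul_mem (γ u) hw))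
      ((Wm L x y φ ψ).smul_mem (γ w) hu))
    convert h4 using 1
    ext v
    · simp only [Prod.smul_mk, Prod.mk_add_mk, Prod.mk_sub_mk, LinearMap.zero_apply]
      have : (γ w • u + (0:ℂ) • w + γ u • w + γ u • w - γ w • u) = (2 * γ u) • w := by module
      rw [this, smul_smul, inv_mul_cancel₀ (by simpa using hγ), one_smul]
    · simp
  obtain ⟨hk1, hk2, -, -, -⟩ := mem_Wm.mp hu
  obtain ⟨u₁, α₁, hu₁, hα₁⟩ : ∃ (u' : U) (α' : U →ₗ[ℂ] ℂ), (u', α') ∈ Wm L x y φ ψ ∧ α' u ≠ 0 := by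
    by_contra hc
    push Not at hc
    exact hu0 (h.w5 hSL hirr hk1 hk2 hc)
  intro w γ hw
  by_cases hγ : γ u = 0
  · have h1 := c1 _ _ ((Wm L x y φ ψ).add_mem hw hu₁) (by simpa [hγ] using hα₁)
    have h2 := (Wm L x y φ ψ).sub_mem h1 (c1 _ _ hu₁ hα₁)
    simpa using h2
  · exact c1 _ _ hw hγ

/-- Case A2 -/
lemma Dt.caseA2 (h : Dt L x y φ ψ) {S : Set (End ℂ U)} (hSL : ∀ D ∈ S, D ∈ L)
    (hirr : ∀ W : Submodule ℂ U, (∀ D ∈ S, ∀ w ∈ W, D w ∈ W) → W = ⊥ ∨ W = ⊤)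
    {α : U →ₗ[ℂ] ℂ} (hα0 : α ≠ 0) (hα : ((0 : U), α) ∈ Wm L x y φ ψ) :
    ∀ (w : U) (γ : U →ₗ[ℂ] ℂ), (w, γ) ∈ Wm L x y φ ψ → (w, (0 : U →ₗ[ℂ] ℂ)) ∈ Wm L x y φ ψ := by
  have c1 : ∀ (w : U) (γ : U →ₗ[ℂ] ℂ), (w, γ) ∈ Wm L x y φ ψ → α w ≠ 0 →
      (w, (0 : U →ₗ[ℂ] ℂ)) ∈ Wm L x y φ ψ := by
    intro w γ hw hγ
    have h3 := h.w3 hα hw hw
    have h4 := (Wm L x y φ ψ).smul_mem (2 * α w)⁻¹ ((Wm L x y φ ψ).add_mem
      ((Wm L x y φ ψ).add_mem h3 ((Wm L x y φ ψ).smul_mem (α w) hw))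
      ((Wm L x y φ ψ).smul_mem (γ w) hα))
    convert h4 using 1
    ext v
    · simp only [Prod.smul_mk, Prod.mk_add_mk]
      have : (γ w • (0:U) + α w • w + γ (0:U) • w + α w • w + γ w • (0:U)) = (2 * α w) • w := by
        rw [map_zero]; module
      rw [this, smul_smul, inv_mul_cancel₀ (by simpa using hγ), one_smul]
    · simp
  obtain ⟨-, -, k1, k2, -⟩ := mem_Wm.mp hα
  obtain ⟨v, hv⟩ : ∃ v, α v ≠ 0 := by
    by_contra hc
    push Not at hc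
    exact hα0 (LinearMap.ext hc)
  obtain ⟨α₁, hu₁⟩ := h.w4 hSL hirr (h.φpr v) (h.ψpr v)
  have hα₁ : α (pr x y φ ψ v) ≠ 0 := by rwa [h.app k1 k2]
  intro w γ hw
  by_cases hγ : α w = 0
  · have h1 := c1 _ _ ((Wm L x y φ ψ).add_mem hw hu₁) (by simpa [hγ] using hα₁)
    have h2 := (Wm L x y φ ψ).sub_mem h1 (c1 _ _ hu₁ hα₁)
    simpa using h2
  · exact c1 _ _ hw hγ

variable [FiniteDimensional ℂ U]

/-- the case where `𝒲` is everything: `L` contains the special linear Lie algebra -/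
lemma Dt.finA (h : Dt L x y φ ψ) {S : Set (End ℂ U)} (hSL : ∀ D ∈ S, D ∈ L)
    (hirr : ∀ W : Submodule ℂ U, (∀ D ∈ S, ∀ w ∈ W, D w ∈ W) → W = ⊥ ∨ W = ⊤)
    (hA : ∀ (w : U) (γ : U →ₗ[ℂ] ℂ), (w, γ) ∈ Wm L x y φ ψ → (w, (0 : U →ₗ[ℂ] ℂ)) ∈ Wm L x y φ ψ)
    (A : End ℂ U) (htr : LinearMap.trace ℂ U A = 0) : A ∈ L := by
  have f1' : ∀ u, φ u = 0 → ψ u = 0 → (u, (0 : U →ₗ[ℂ] ℂ)) ∈ Wm L x y φ ψ := by
    intro u h1 h2
    obtain ⟨α, hα⟩ := h.w4 hSL hirr h1 h2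
    exact hA _ _ hα
  have f2' : ∀ α : U →ₗ[ℂ] ℂ, α x = 0 → α y = 0 → ((0 : U), α) ∈ Wm L x y φ ψ := by
    intro α h1 h2
    set P : Submodule ℂ (Dual ℂ U) := (Wm L x y φ ψ).map (LinearMap.snd ℂ U (U →ₗ[ℂ] ℂ)) ⊔
      Submodule.span ℂ {φ, ψ} with hP
    have hco : P.dualCoannihilator = ⊥ := by
      rw [Submodule.eq_bot_iff]
      intro v hv
      rw [Submodule.mem_dualCoannihilator] at hv
      refine h.w5 hSL hirr ?_ ?_ ?_
      · exact hv φ (Submodule.mem_sup_right (Submodule.subset_span (by simp)))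
      · exact hv ψ (Submodule.mem_sup_right (Submodule.subset_span (by simp)))
      · intro u' α' hu'
        exact hv α' (Submodule.mem_sup_left ⟨(u', α'), hu', rfl⟩)
    have hPt : P = ⊤ := by
      have := Subspace.dualCoannihilator_dualAnnihilator_eq (W := P)
      rw [hco, Submodule.dualAnnihilator_bot] at this
      exact this.symm
    have hα : α ∈ P := by rw [hPt]; trivial
    rw [hP, Submodule.mem_sup] at hα
    obtain ⟨β, ⟨⟨w, β'⟩, hwβ, hβ'⟩, θ, hθ, he⟩ := hα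
    have hβ'' : β' = β := hβ'
    subst hβ''
    obtain ⟨a, b, hab⟩ := Submodule.mem_span_pair.mp hθ
    obtain ⟨-, -, k1, k2, -⟩ := mem_Wm.mp hwβ
    have e1 := congrArg (fun T : U →ₗ[ℂ] ℂ => T x) he
    have e2 := congrArg (fun T : U →ₗ[ℂ] ℂ => T y) he
    simp only [← hab, LinearMap.add_apply, LinearMap.smul_apply, k1, k2, h1, h2, h.hφx, h.hφy,
      h.hψx, h.hψy, smul_eq_mul, mul_zero, mul_one, zero_add, add_zero] at e1 e2
    rw [← he, ← hab, e1, e2]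
    have := (Wm L x y φ ψ).sub_mem hwβ (hA _ _ hwβ)
    simpa using this
  have f1 : ∀ u, φ u = 0 → ψ u = 0 → tp u φ ∈ L := by
    intro u h1 h2
    have := (mem_Wm.mp (f1' u h1 h2)).2.2.2.2
    have e : tp u φ = tp u φ + tp x (0 : U →ₗ[ℂ] ℂ) := by ext v; simp
    rw [e]; exact this
  have f3 : ∀ u, φ u = 0 → ψ u = 0 → tp u ψ ∈ L := by
    intro u h1 h2
    have := h.w0 (f1' u h1 h2)
    have e : tp u ψ = -(tp y (0 : U →ₗ[ℂ] ℂ) - tp u ψ) := by ext v; simp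
    rw [e]; exact L.neg_mem this
  have f2 : ∀ α : U →ₗ[ℂ] ℂ, α x = 0 → α y = 0 → tp x α ∈ L := by
    intro α h1 h2
    have := (mem_Wm.mp (f2' α h1 h2)).2.2.2.2
    have e : tp x α = tp (0 : U) φ + tp x α := by ext v; simp
    rw [e]; exact this
  have f4 : ∀ α : U →ₗ[ℂ] ℂ, α x = 0 → α y = 0 → tp y α ∈ L := by
    intro α h1 h2
    have := h.w0 (f2' α h1 h2)
    have e : tp y α = tp y α - tp (0 : U) ψ := by ext v; simp
    rw [e]; exact this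
  have f5 : ∀ u (α : U →ₗ[ℂ] ℂ), φ u = 0 → ψ u = 0 → α x = 0 → α y = 0 →
      tp u α - α u • tp y φ ∈ L := by
    intro u α h1 h2 h3 h4
    have := h.hb _ (f1 u h1 h2) _ (f4 α h3 h4)
    have e : tp u α - α u • tp y φ = tp u φ * tp y α - tp y α * tp u φ := by
      ext v; simp [h.hφy, smul_smul, mul_comm]
    rw [e]; exact this
  have f6 : ∀ v (θ : U →ₗ[ℂ] ℂ), tp v θ - θ v • tp y φ ∈ L := by
    intro v θ
    set u := pr x y φ ψ v with hu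
    set α : U →ₗ[ℂ] ℂ := θ.comp (pr x y φ ψ) with hα
    have a1 : φ u = 0 := h.φpr v
    have a2 : ψ u = 0 := h.ψpr v
    have a3 : α x = 0 := by simp [hα, h.pr_x]
    have a4 : α y = 0 := by simp [hα, h.pr_y]
    have hv : v = ψ v • x + φ v • y + u := Dt.pr_eq v
    have hθ : ∀ z, θ z = ψ z * θ x + φ z * θ y + α z := by
      intro z
      conv_lhs => rw [Dt.pr_eq (x := x) (y := y) (φ := φ) (ψ := ψ) z]
      simp [hα]
    have hαv : α v = α u := by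
      simp [hα, hu, pr_of (h.φpr v) (h.ψpr v)]
    have e : tp v θ - θ v • tp y φ =
        (ψ v * θ x) • (tp x ψ - tp y φ) + (ψ v * θ y) • tp x φ + ψ v • tp x α
        + (φ v * θ x) • tp y ψ + φ v • tp y α
        + θ x • tp u ψ + θ y • tp u φ + (tp u α - α u • tp y φ) := by
      ext z
      simp only [LinearMap.sub_apply, LinearMap.add_apply, LinearMap.smul_apply, tp_apply]
      rw [hθ z, hθ v, hαv]
      nth_rewrite 1 [hv]
      module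
    rw [e]
    exact L.add_mem (L.add_mem (L.add_mem (L.add_mem (L.add_mem (L.add_mem (L.add_mem
      (L.smul_mem _ h.hH) (L.smul_mem _ h.hE)) (L.smul_mem _ (f2 α a3 a4)))
      (L.smul_mem _ h.hF)) (L.smul_mem _ (f4 α a3 a4))) (L.smul_mem _ (f3 u a1 a2)))
      (L.smul_mem _ (f1 u a1 a2))) (f5 u α a1 a2 a3 a4)
  -- decomposition in a basis
  set b := finBasis ℂ U with hbas
  have hAe : A = ∑ i, tp (A (b i)) (b.coord i) := by
    ext v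
    simp only [LinearMap.sum_apply, tp_apply, Basis.coord_apply]
    conv_lhs => rw [← b.sum_repr v]
    simp only [map_sum, map_smul]
  have htr' : ∑ i, (b.coord i) (A (b i)) = 0 := by
    rw [hAe, map_sum] at htr
    rw [← htr]
    refine Finset.sum_congr rfl fun i _ => ?_
    exact (LinearMap.trace_smulRight _ _).symm
  have : A = ∑ i, (tp (A (b i)) (b.coord i) - (b.coord i) (A (b i)) • tp y φ) := by
    rw [Finset.sum_sub_distrib, ← Finset.sum_smul, htr', zero_smul, sub_zero]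
    exact hAe
  rw [this]
  exact L.sum_mem fun i _ => f6 _ _

/-- the case where `𝒲` is a graph: there is a semi-invariant form -/
lemma Dt.finB (h : Dt L x y φ ψ) {S : Set (End ℂ U)} (hSL : ∀ D ∈ S, D ∈ L)
    (hirr : ∀ W : Submodule ℂ U, (∀ D ∈ S, ∀ w ∈ W, D w ∈ W) → W = ⊥ ∨ W = ⊤)
    (hB : ∀ α : U →ₗ[ℂ] ℂ, ((0 : U), α) ∈ Wm L x y φ ψ → α = 0) :
    ∃ (β : U →ₗ[ℂ] U →ₗ[ℂ] ℂ) (c : End ℂ U → ℂ),
      (∀ A ∈ L, ∀ u v, β (A u) v + β u (A v) = c A * β u v) ∧ β ≠ 0 := by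
  -- alternating
  have alt1 : ∀ (u : U) (α : U →ₗ[ℂ] ℂ), (u, α) ∈ Wm L x y φ ψ → α u = 0 := by
    intro u α hu
    have h3 := h.w3 hu hu hu
    have h4 := (Wm L x y φ ψ).sub_mem ((Wm L x y φ ψ).smul_mem (3 * α u) hu) h3
    have h5 : ((0 : U), (6 * α u) • α) ∈ Wm L x y φ ψ := by
      convert h4 using 1
      ext v
      · simp only [Prod.smul_mk, Prod.mk_sub_mk]
        module
      · simp only [Prod.smul_mk, Prod.mk_sub_mk, LinearMap.sub_apply, LinearMap.smul_apply,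
          LinearMap.neg_apply, LinearMap.add_apply, smul_eq_mul]
        ring
    have h6 := hB _ h5
    by_contra hne
    have h7 : α = 0 := by
      rcases smul_eq_zero.mp h6 with h8 | h8
      · exact absurd h8 (by simpa using hne)
      · exact h8
    rw [h7] at hne
    simp at hne
  have alt2 : ∀ (u v : U) (α γ : U →ₗ[ℂ] ℂ), (u, α) ∈ Wm L x y φ ψ → (v, γ) ∈ Wm L x y φ ψ →
      α v = - γ u := by
    intro u v α γ hu hv
    have := alt1 _ _ ((Wm L x y φ ψ).add_mem hu hv)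
    simp only [LinearMap.add_apply, map_add, alt1 _ _ hu, alt1 _ _ hv] at this
    linear_combination this
  -- the linear map
  obtain ⟨J, hJ⟩ : ∃ J : U →ₗ[ℂ] (U →ₗ[ℂ] ℂ), ∀ (u : U) (α : U →ₗ[ℂ] ℂ),
      (u, α) ∈ Wm L x y φ ψ → J u = α := by
    obtain ⟨q, hq⟩ := LinearMap.exists_leftInverse_of_injective
      ((LinearMap.fst ℂ U (U →ₗ[ℂ] ℂ)).comp (Wm L x y φ ψ).subtype) (by
        rw [LinearMap.ker_eq_bot']
        rintro ⟨⟨u, α⟩, hu⟩ h0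
        have h0' : u = 0 := h0
        subst h0'
        have := hB _ hu
        subst this
        rfl)
    refine ⟨(LinearMap.snd ℂ U (U →ₗ[ℂ] ℂ)).comp ((Wm L x y φ ψ).subtype.comp q), ?_⟩
    intro u α hu
    have := congrArg (fun T => T (⟨(u, α), hu⟩ : Wm L x y φ ψ)) hq
    have h2 : q u = ⟨(u, α), hu⟩ := this
    simp [h2]
  have hJm : ∀ u, φ u = 0 → ψ u = 0 → (u, J u) ∈ Wm L x y φ ψ := by
    intro u h1 h2
    obtain ⟨α, hα⟩ := h.w4 hSL hirr h1 h2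
    rw [hJ u α hα]; exact hα
  refine ⟨ψ.smulRight φ - φ.smulRight ψ + J.comp (pr x y φ ψ), fun A => ψ (A x) + φ (A y), ?_, ?_⟩
  · intro A hA u v
    set p := pr x y φ ψ with hp
    have m0 := hJm (p u) (h.φpr u) (h.ψpr u)
    have j1 : J (p (A x)) = -(φ.comp (A.comp p)) := hJ _ _ (h.w1 hA)
    have j2 : J (p (A y)) = ψ.comp (A.comp p) := hJ _ _ (h.w2 hA)
    have j3 : J (p (A (p u)) - φ (A y) • p u) = ψ (A x) • J (p u) - (J (p u)).comp (A.comp p) :=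
      hJ _ _ (h.w6 hA m0)
    obtain ⟨-, -, k1, k2, -⟩ := mem_Wm.mp m0
    -- values
    have d1 : ∀ (T : U →ₗ[ℂ] ℂ) (z : U), T (A z) = ψ z * T (A x) + φ z * T (A y) + T (A (p z)) := by
      intro T z
      conv_lhs => rw [Dt.pr_eq (x := x) (y := y) (φ := φ) (ψ := ψ) z]
      simp [hp]
    have d2 : J (p (A u)) v = ψ u * J (p (A x)) v + φ u * J (p (A y)) v + J (p (A (p u))) v := by
      conv_lhs => rw [Dt.pr_eq (x := x) (y := y) (φ := φ) (ψ := ψ) u]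
      simp [hp]
    have d3 : J (p (A (p u))) v = φ (A y) * J (p u) v + ψ (A x) * J (p u) v -
        J (p u) (A (p v)) := by
      have := congrArg (fun T : U →ₗ[ℂ] ℂ => T v) j3
      simp only [map_sub, map_smul, LinearMap.sub_apply, LinearMap.smul_apply, smul_eq_mul,
        LinearMap.comp_apply] at this
      linear_combination this
    have d4 : J (p (A x)) v = -φ (A (p v)) := by rw [j1]; rfl
    have d5 : J (p (A y)) v = ψ (A (p v)) := by rw [j2]; rfl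
    have d6 : J (p u) (A x) = φ (A (p u)) := by
      have e1 := alt2 _ _ _ _ m0 (h.w1 hA)
      rw [h.app k1 k2] at e1
      rw [e1]
      simp [pr_of (h.φpr u) (h.ψpr u), hp]
    have d7 : J (p u) (A y) = -ψ (A (p u)) := by
      have e1 := alt2 _ _ _ _ m0 (h.w2 hA)
      rw [h.app k1 k2] at e1
      rw [e1]
      simp [pr_of (h.φpr u) (h.ψpr u), hp]
    simp only [LinearMap.add_apply, LinearMap.sub_apply, LinearMap.smulRight_apply,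
      LinearMap.smul_apply, smul_eq_mul, LinearMap.comp_apply]
    rw [d2, d3, d4, d5, d1 ψ u, d1 φ u, d1 φ v, d1 ψ v, d1 (J (p u)) v, d6, d7]
    ring
  · intro h0
    have := congrArg (fun T : U →ₗ[ℂ] U →ₗ[ℂ] ℂ => T x y) h0
    simp [h.hψx, h.hφy, h.hφx, h.hψy, h.pr_x] at this

end

/-- GS/Bsl -/
theorem Bsl : S_Bsl := by
  intro U _ _ _ S L N hS1 hSL hb hirr hform hN hNN hrk A htr
  -- `N = x₀ ⊗ φ₀`
  obtain ⟨⟨x₀, hx₀r⟩, hx₀, hspan⟩ := finrank_eq_one_iff'.mp hrk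
  have hx₀' : x₀ ≠ 0 := fun h0 => hx₀ (by ext; exact h0)
  obtain ⟨g, hg⟩ := Projective.exists_dual_eq_one ℂ hx₀'
  have hNv : ∀ v, N v = g (N v) • x₀ := by
    intro v
    obtain ⟨c, hc⟩ := hspan ⟨N v, v, rfl⟩
    have hc' : c • x₀ = N v := congrArg Subtype.val hc
    rw [← hc', map_smul, hg]; simp
  set φ₀ : U →ₗ[ℂ] ℂ := g.comp N with hφ₀
  have hNe : N = tp x₀ φ₀ := by
    ext v; exact hNv v
  have hφ₀0 : φ₀ ≠ 0 := by
    intro h0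
    obtain ⟨v, hv⟩ := hx₀r
    apply hx₀'
    rw [← hv, hNe, h0]; simp
  have hφx : φ₀ x₀ = 0 := by
    obtain ⟨v, hv⟩ := hx₀r
    have := congrArg (fun T : End ℂ U => T v) hNN
    have h2 : N (N v) = 0 := by simpa using this
    rw [hv] at h2
    simp [hφ₀, h2]
  obtain ⟨x, y, φ, ψ, hφ, hψ, hφy, hψx⟩ := exists_pair hS1 hSL hb hirr hx₀' hφ₀0
    ⟨by rw [← hNe]; exact hN, hφx⟩
  have h : Dt L x y φ ψ := ⟨hb, hφ.1, hψ.1, hφ.2, hψ.2, hφy, hψx⟩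
  by_cases hB : ∀ α : U →ₗ[ℂ] ℂ, ((0 : U), α) ∈ Wm L x y φ ψ → α = 0
  · obtain ⟨β, c, h1, h2⟩ := h.finB hSL hirr hB
    exact absurd (hform β c h1) h2
  · push Not at hB
    obtain ⟨α, hα, hα0⟩ := hB
    exact h.finA hSL hirr (h.caseA2 hSL hirr hα0 hα) A htr

end Pool.Agent.N31.GSBsl
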