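import Pool.Agent.N367.LE.Stm

/-! Class number two for `D = n ^ 2 + 4`: the analytic relation (part AN of helper367). -/

namespace Pool.Agent.N31.LEan

open H419R2 Pool.Agent.N911 Pool.Agent.N367.LE QuadraticAlgebra Module Finset Filter Topology

section

variable {n : ℕ} [IsDedekindDomain (QA 1 (n : ℤ))]

theorem absNorm_span' (z : QA 1 (n : ℤ)) :
    Ideal.absNorm (Ideal.span {z}) = (QuadraticAlgebra.norm z).natAbs := by
  rw [Ideal.absNorm_span_singleton, algebra_norm_eq]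

/-- the fibre of the norm on a parametrisation of the principal ideals -/
theorem aux {P : Type*} (φ : P → Ideal (QA 1 (n : ℤ))) (hφ : Function.Injective φ)
    (hr : ∀ I : Ideal (QA 1 (n : ℤ)), (I ≠ ⊥ ∧ I.IsPrincipal) ↔ I ∈ Set.range φ)
    (F : ℕ → ℝ) (hF0 : F 0 = 0) (k : ℕ) : F k * (pcnt n k : ℝ) =
      ∑' (b : ↑((fun p => Ideal.absNorm (φ p)) ⁻¹' {k})), F (Ideal.absNorm (φ ↑b)) := by
  have h2 : ∀ b : (fun p => Ideal.absNorm (φ p)) ⁻¹' {k}, F (Ideal.absNorm (φ b)) = F k := by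
    rintro ⟨b, hb⟩
    simp only [Set.mem_preimage, Set.mem_singleton_iff] at hb
    simp only [hb]
  rw [tsum_congr h2, tsum_const]
  by_cases hk : k = 0
  · subst hk; simp [hF0]
  · rw [nsmul_eq_mul, mul_comm]
    congr 2
    unfold pcnt
    have h3 : {I : Ideal (QA 1 (n : ℤ)) | I.IsPrincipal ∧ Ideal.absNorm I = k} =
        φ '' ((fun p => Ideal.absNorm (φ p)) ⁻¹' {k}) := by
      ext I
      simp only [Set.mem_ofPred_eq, Set.mem_image, Set.mem_preimage, Set.mem_singleton_iff]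
      constructor
      · rintro ⟨hp, h⟩
        have hI : I ≠ ⊥ := by
          rintro rfl
          rw [Ideal.absNorm_bot] at h
          exact hk h.symm
        obtain ⟨p, rfl⟩ := (hr I).mp ⟨hI, hp⟩
        exact ⟨p, h, rfl⟩
      · rintro ⟨p, h, rfl⟩
        exact ⟨((hr (φ p)).mpr ⟨p, rfl⟩).2, h⟩
    rw [h3, Set.ncard_image_of_injective _ hφ]
    rfl

theorem tsum_principal {P : Type*} (φ : P → Ideal (QA 1 (n : ℤ))) (hφ : Function.Injective φ)
    (hr : ∀ I : Ideal (QA 1 (n : ℤ)), (I ≠ ⊥ ∧ I.IsPrincipal) ↔ I ∈ Set.range φ)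
    (F : ℕ → ℝ) (hF0 : F 0 = 0) (hs : Summable (fun p => F (Ideal.absNorm (φ p)))) :
    HasSum (fun k => F k * (pcnt n k : ℝ)) (∑' p, F (Ideal.absNorm (φ p))) := by
  have h1 := hs.hasSum.tsum_fiberwise (fun p => Ideal.absNorm (φ p))
  have heq : (fun k => F k * (pcnt n k : ℝ)) =
      (fun c => ∑' (b : ↑((fun p => Ideal.absNorm (φ p)) ⁻¹' {c})), F (Ideal.absNorm (φ ↑b))) := by
    funext k
    exact aux φ hφ hr F hF0 k
  rw [heq]
  exact h1

/-- the sum over the principal ideals and the expansion at zero -/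
theorem cyc_sum (C : Cyc 1 (n : ℤ)) {N : ℕ} [NeZero N] {F : ZMod N → ℝ}
    (hodd : ∀ x, F (-x) = -F x) : ∃ W : ℝ → ℝ, HasExp W (2 * ∑ n ∈ range C.l, C.HH F n) ∧
      ∀ᶠ t in 𝓝[>] (0 : ℝ), HasSum (fun k : ℕ => F k * Real.exp (-(t * k)) * (pcnt n k : ℝ)) (W t) := by
  have hF0 : F 0 = 0 := by
    have := hodd 0
    rw [neg_zero] at this
    linarith
  rw [← C.sum_C0' hodd]
  have hΦ : ∀ x, |F x| ≤ ∑ x : ZMod N, |F x| := fun x =>
    Finset.single_le_sum (f := fun x => |F x|) (fun _ _ => abs_nonneg _) (Finset.mem_univ x)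
  rw [← Fin.sum_univ_eq_sum_range
    (fun j => (C.wd (2 * j)).C0 N (fun u w => F (C.fz N (2 * j) u w))) C.l]
  have hfz : ∀ n, (fun (u w : ℕ) => F (C.fz N n u w)) = (fun u w : ℕ => F ((C.q n : ZMod N) * (u : ZMod N) ^ 2 +
      (C.b n : ZMod N) * u * w + ((-C.q (n + 1) : ℤ) : ZMod N) * (w : ZMod N) ^ 2)) := by
    intro n
    funext u w
    congr 1
    unfold Cyc.fz
    push_cast; ring
  have hexpf : ∀ n, HasExp ((C.wd n).WS (fun u w => F (C.fz N n u w)))
      ((C.wd n).C0 N (fun u w => F (C.fz N n u w))) := by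
    intro n
    have h := (C.wd n).hasExp F (C.q n) (C.b n) (-C.q (n + 1))
    rw [hfz n]
    exact h
  refine ⟨fun t => ∑ j : Fin C.l, (C.wd (2 * (j : ℕ))).WS (fun u w => F (C.fz N (2 * (j : ℕ)) u w)) t,
    ?_, ?_⟩
  · have : ∀ s : Finset (Fin C.l), HasExp
        (fun t => ∑ j ∈ s, (C.wd (2 * (j : ℕ))).WS (fun u w => F (C.fz N (2 * (j : ℕ)) u w)) t)
        (∑ j ∈ s, (C.wd (2 * (j : ℕ))).C0 N (fun u w => F (C.fz N (2 * (j : ℕ)) u w))) := by
      classical
      intro s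
      induction s using Finset.induction_on with
      | empty =>
        refine ⟨0, 0, 0, ?_⟩
        filter_upwards with t
        simp
      | insert j s hj ih =>
        have h1 := HasExp.add (hexpf (2 * (j : ℕ))) ih
        simp only [Finset.sum_insert hj]
        exact h1
    exact this Finset.univ
  · have hsm : ∀ᶠ t in 𝓝[>] (0 : ℝ), ∀ j : Fin C.l, 0 < t ∧ t * (C.wd (2 * (j : ℕ))).Γ ≤ 1 := by
      rw [Filter.eventually_all]
      intro j
      exact (C.wd (2 * (j : ℕ))).small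
    filter_upwards [hsm] with t ht
    have hWt : HasSum (fun p => F (((QuadraticAlgebra.norm (C.gen p)).natAbs : ℕ)) *
        Real.exp (-(t * (QuadraticAlgebra.norm (C.gen p)).natAbs)))
        (∑ j : Fin C.l, (C.wd (2 * (j : ℕ))).WS (fun u w => F (C.fz N (2 * (j : ℕ)) u w)) t) := by
      apply hasSum_sigma_fin
      intro j
      have := (C.wd (2 * (j : ℕ))).hasSum_int hΦ (a := C.q (2 * j)) (b := C.b (2 * j))
        (d := -C.q (2 * j + 1)) rfl rfl rfl (ht j).1 (ht j).2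
      rw [hfz]
      refine (congrArg (fun g : Idx (C.κ (2 * (j : ℕ))) → ℝ => HasSum g _)
        (funext fun p => ?_)).mpr this
      have e : (QuadraticAlgebra.norm (C.gen ⟨j, p⟩)).natAbs =
          (C.q (2 * j) * (p.1 : ℤ) ^ 2 + C.b (2 * j) * p.1 * ((p.2 : ℕ) : ℤ) +
            -C.q (2 * j + 1) * ((p.2 : ℕ) : ℤ) ^ 2).natAbs := by
        unfold Cyc.gen
        rw [Cyc.norm_even]
        unfold fv
        congr 1
        ring
      rw [e]
    have hN : ∀ p, F (((QuadraticAlgebra.norm (C.gen p)).natAbs : ℕ)) *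
        Real.exp (-(t * (QuadraticAlgebra.norm (C.gen p)).natAbs)) =
        (fun n : ℕ => F n * Real.exp (-(t * n))) (Ideal.absNorm (Ideal.span {C.gen p})) := by
      intro p; rw [absNorm_span']
    rw [funext hN] at hWt
    have h1 := tsum_principal (fun p => Ideal.span {C.gen p}) ?_ ?_
      (fun n : ℕ => F n * Real.exp (-(t * n))) (by simp [hF0]) hWt.summable
    · rw [hWt.tsum_eq] at h1
      exact h1
    · intro p p' h
      exact C.gen_inj (C.inj (C.gen_dom p) (C.gen_dom p') h)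
    · intro I
      constructor
      · rintro ⟨hI, ⟨z, hz'⟩⟩
        have hIz : I = Ideal.span {z} := hz'
        subst hIz
        have hz : z ≠ 0 := by
          rintro rfl; simp at hI
        obtain ⟨z', h1, h2⟩ := C.surj hz
        obtain ⟨p, rfl⟩ := (C.dom_iff z').mp h1
        exact ⟨p, h2⟩
      · rintro ⟨p, rfl⟩
        refine ⟨?_, ⟨C.gen p, rfl⟩⟩
        simp only [ne_eq, Ideal.span_singleton_eq_bot]
        intro h
        have h1 := (C.gen_dom p).1.1
        rw [h] at h1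
        simp at h1

end

/-- **AN** -/
theorem an (hAN : S_AN1) : S_AN := by
  intro n p q hn hp hq hpq hp4 hq4 hD _ hcnt N _ hcop f hf
  have hn0 : 0 < n := by omega
  have hNpos := qpos (q := N)
  have hp0 : (0 : ℝ) < p := by exact_mod_cast hp.pos
  have hq0 : (0 : ℝ) < q := by exact_mod_cast hq.pos
  obtain ⟨F, hF⟩ : ∃ F : ZMod N → ℝ, F = fun x => ((f x : ℤ) : ℝ) := ⟨_, rfl⟩
  have hodd : ∀ x, F (-x) = -F x := by
    intro x
    rw [hF]
    simp only
    rw [hf]
    push_cast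
    rfl
  have hF0 : F 0 = 0 := by
    have := hodd 0
    rw [neg_zero] at this
    linarith
  obtain ⟨W, hexp, hW⟩ := cyc_sum (cyc1 n hn0) (F := F) hodd
  rw [rel1] at hexp
  have hD' : ((p * q : ℕ) : ℤ) = (n : ℤ) ^ 2 + 4 * 1 := by
    rw [← hD]; push_cast; ring
  have hm : (n : ℤ) % 2 = 1 := by exact_mod_cast hn
  have hD1 : 1 < p * q := by
    have := hp.two_le
    have := hq.two_le
    nlinarith
  obtain ⟨hD2, hJ⟩ := jac_two hD' hm (by norm_num)
  have hlim := Lside_limit hD1 hcop hD2 hJ hodd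
  obtain ⟨V, hV, hVlim⟩ := hAN p q N hp hq hpq hp4 hq4 hcop F hodd
  have key : (∑ l ∈ range (N * (p * q)), ∑ a ∈ range N,
      (l : ℝ) * a * jacobiSym l (p * q) * F ((a * l : ℕ))) / (N * (N * (p * q : ℕ))) +
      (∑ l ∈ range (N * p), ∑ a ∈ range (N * q),
        (l : ℝ) * a * jacobiSym l p * jacobiSym a q * F ((a * l : ℕ))) / ((N * p) * (N * q)) =
      RelR F n 1 0 0 + RelR F n 1 0 0 := by
    refine ((HasExp.add hexp hexp).congr ?_).unique (hlim.add hVlim)
    filter_upwards [hW, self_mem_nhdsWithin] with t hWt ht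
    have ht' : (0 : ℝ) < t := ht
    have h2 := Lside_hasSum (f := fun n : ℕ => F n) hD1 (by simp [hF0])
      (Φ := ∑ x : ZMod N, |F x|)
      (fun j => Finset.single_le_sum (f := fun x => |F x|) (fun _ _ => abs_nonneg _)
        (Finset.mem_univ _)) ht'
    have h3 := h2.add (hV t ht')
    have h4 := hWt.add hWt
    have h5 : (fun k : ℕ => F k * Real.exp (-(t * k)) * (pcnt n k : ℝ) +
        F k * Real.exp (-(t * k)) * (pcnt n k : ℝ)) =
        (fun k : ℕ => F k * Real.exp (-(t * k)) * (rr (p * q) k : ℝ) +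
          F k * Real.exp (-(t * k)) * (gg p q k : ℝ)) := by
      funext k
      by_cases hk : k = 0
      · subst hk; simp [hF0]
      · have h6 := hcnt k hk
        have h7 : 2 * (pcnt n k : ℝ) = (rr (p * q) k : ℝ) + (gg p q k : ℝ) := by exact_mod_cast h6
        linear_combination (F k * Real.exp (-(t * k))) * h7
    rw [h5] at h4
    exact h4.unique h3
  -- the relation over the integers
  have r1 : RelR F n 1 0 0 = 2 * Ef F 1 (n : ZMod N) 1 + n * Yf F 1 (n : ZMod N) 1 := by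
    unfold RelR
    have f1 : ((2 * 0 * 1 - (n : ℤ) : ℤ) : ZMod N) = -(n : ZMod N) := by push_cast; ring
    have f2 : ((1 + 0 * (n : ℤ) - 0 ^ 2 * 1 : ℤ) : ZMod N) = 1 := by push_cast; ring
    have f3 : ((2 * 0 * (1 + 0 * (n : ℤ) - 0 ^ 2 * 1) - (2 * 0 * 1 - (n : ℤ)) : ℤ) : ZMod N) =
      (n : ZMod N) := by push_cast; ring
    rw [f1, f2, f3, Int.cast_one, Ef_neg]
    push_cast
    ring
  have e1 := SE_real f 1 (n : ZMod N) 1
  have e2 := SY_real f 1 (n : ZMod N) 1
  rw [← hF] at e1 e2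
  rw [r1] at key
  have hR : ((((p * q : ℕ) : ℤ) * (3 * SE f 1 (n : ZMod N) 1 + n * SY f 1 (n : ZMod N) 1) : ℤ) : ℝ) =
      ((3 * (∑ l ∈ range (N * (p * q)), ∑ a ∈ range N,
        (l : ℤ) * a * jacobiSym l (p * q) * f ((a * l : ℕ)) +
      ∑ l ∈ range (N * p), ∑ a ∈ range (N * q),
        (l : ℤ) * a * jacobiSym l p * jacobiSym a q * f ((a * l : ℕ))) : ℤ) : ℝ) := by
    have s1 : ((∑ l ∈ range (N * (p * q)), ∑ a ∈ range N,
        (l : ℤ) * a * jacobiSym l (p * q) * f ((a * l : ℕ)) : ℤ) : ℝ) =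
        ∑ l ∈ range (N * (p * q)), ∑ a ∈ range N,
          (l : ℝ) * a * jacobiSym l (p * q) * F ((a * l : ℕ)) := by
      rw [hF]
      push_cast
      rfl
    have s2 : ((∑ l ∈ range (N * p), ∑ a ∈ range (N * q),
        (l : ℤ) * a * jacobiSym l p * jacobiSym a q * f ((a * l : ℕ)) : ℤ) : ℝ) =
        ∑ l ∈ range (N * p), ∑ a ∈ range (N * q),
          (l : ℝ) * a * jacobiSym l p * jacobiSym a q * F ((a * l : ℕ)) := by
      rw [hF]
      push_cast
      rfl
    rw [Int.cast_mul, Int.cast_add, Int.cast_mul 3, Int.cast_mul (n : ℤ), e1, e2, Int.cast_mul 3,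
      Int.cast_add, s1, s2]
    obtain ⟨A, hA⟩ : ∃ A, A = ∑ l ∈ range (N * (p * q)), ∑ a ∈ range N,
          (l : ℝ) * a * jacobiSym l (p * q) * F ((a * l : ℕ)) := ⟨_, rfl⟩
    obtain ⟨B, hB⟩ : ∃ B, B = ∑ l ∈ range (N * p), ∑ a ∈ range (N * q),
          (l : ℝ) * a * jacobiSym l p * jacobiSym a q * F ((a * l : ℕ)) := ⟨_, rfl⟩
    rw [← hA, ← hB] at key ⊢
    push_cast at key ⊢
    field_simp at key
    linear_combination (-3 : ℝ) * key
  exact_mod_cast hR

end Pool.Agent.N31.LEan
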