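import Mathlib

/-!
# A local loop lemma for odd cycles

`R` symmetric on `A`, `f` idempotent and compatible with `R`, and the neighbourhood of `a` absorbs
`{a}`.  If `a` lies on an odd cycle then `R` has a loop.
-/

namespace Pool.Agent.N31.LoopOdd

open Function

/-- The standing hypotheses: `R` symmetric, `f` idempotent and compatible with `R`, and the
neighbourhood of `a` absorbs `{a}`. -/
structure Good {A : Type*} {n : ℕ} (R : A → A → Prop) (f : (Fin n → A) → A) (a : A) : Prop where
  symm : ∀ x y, R x y → R y x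
  idem : ∀ x, f (fun _ => x) = x
  comp : ∀ x y : Fin n → A, (∀ i, R (x i) (y i)) → R (f x) (f y)
  abs : ∀ (j : Fin n) (b : Fin n → A), (∀ i, R a (b i)) → R a (f (update b j a))

/-! ## The tree lemma -/

section tree

variable {A : Type*} {n : ℕ}

/-- value of the `n`-ary tree of height `m` below the word `σ`, with leaf labels `L`. -/
def Tr (f : (Fin n → A) → A) (L : List (Fin n) → A) : ℕ → List (Fin n) → A
  | 0, σ => L σ
  | m + 1, σ => f (fun k => Tr f L m (σ ++ [k]))

theorem Tr_mem {f : (Fin n → A) → A} {L : List (Fin n) → A} {P : A → Prop}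
    (hP : ∀ x : Fin n → A, (∀ k, P (x k)) → P (f x)) :
    ∀ (m : ℕ) (σ : List (Fin n)),
      (∀ τ : List (Fin n), τ.length = m → P (L (σ ++ τ))) → P (Tr f L m σ)
  | 0, σ, h => by simpa [Tr] using h [] rfl
  | m + 1, σ, h => hP _ fun k => Tr_mem hP m (σ ++ [k]) fun τ hτ => by
      have := h (k :: τ) (by simp [hτ])
      simpa using this

theorem tree {R : A → A → Prop} {f : (Fin n → A) → A} {a : A} (hG : Good R f a)
    (b0 : A) (hb0 : R a b0) (q M : ℕ) (hqM : q + 1 < M) (L : List (Fin n) → A)
    (C1 : ∀ (x i : Fin n) (σ : List (Fin n)), σ.length + q + 1 = M →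
      L (x :: (List.replicate q i ++ σ)) = a)
    (C3 : ∀ (i k : Fin n) (σ : List (Fin n)), k ≠ i → σ.length + q + 1 = M →
      R a (L (List.replicate q i ++ k :: σ)))
    (C4 : ∀ (x : Fin n) (τ : List (Fin n)) (k : Fin n), τ.length + 1 = M →
      (¬ ∃ i, List.replicate q i <+: τ) → R (L (x :: τ)) (L (τ ++ [k])))
    (P : A → Prop) (hPf : ∀ x : Fin n → A, (∀ k, P (x k)) → P (f x)) (hPL : ∀ σ, P (L σ)) :
    ∃ x, P x ∧ R x x := by
  have key : ∀ (m : ℕ) (τ : List (Fin n)), τ.length + m + 1 = M →
      (τ.length ≤ q ∨ ¬ ∃ i, List.replicate q i <+: τ) →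
      ∀ j, R (Tr f L m (j :: τ)) (Tr f L (m + 1) τ) := by
    intro m
    induction m with
    | zero =>
      intro τ hτ hor j
      have h1 : ¬ ∃ i, List.replicate q i <+: τ := by
        rcases hor with h | h
        · omega
        · exact h
      have h2 : L (j :: τ) = f (fun _ => L (j :: τ)) := (hG.idem _).symm
      show R (L (j :: τ)) (f (fun k => L (τ ++ [k])))
      rw [h2]
      exact hG.comp _ _ fun k => C4 j τ k (by omega) h1
    | succ m ih =>
      intro τ hτ hor j
      by_cases h : τ.length = q ∧ ∃ i, List.replicate q i <+: τ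
      · obtain ⟨hlen, i, hi⟩ := h
        have hτe : τ = List.replicate q i := by
          exact (hi.eq_of_length (by simp [hlen])).symm
        subst hτe
        have hA : ∀ x : Fin n, Tr f L (m + 1) (x :: List.replicate q i) = a := by
          intro x
          apply Tr_mem (P := fun z => z = a)
          · intro z hz
            have : z = fun _ => a := funext hz
            rw [this, hG.idem]
          · intro σ hσ
            rw [List.cons_append]
            exact C1 x i σ (by simp at hτ; omega)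
        rw [hA j]
        show R a (f (fun k => Tr f L (m + 1) (List.replicate q i ++ [k])))
        have hB : ∀ k, k ≠ i → R a (Tr f L (m + 1) (List.replicate q i ++ [k])) := by
          intro k hk
          apply Tr_mem (P := fun z => R a z)
          · intro z hz
            have := hG.comp (fun _ => a) z hz
            rwa [hG.idem] at this
          · intro σ hσ
            have := C3 i k σ hk (by simp at hτ; omega)
            simpa using this
        have hC : (fun k => Tr f L (m + 1) (List.replicate q i ++ [k])) =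
            update (fun k => if k = i then b0 else Tr f L (m + 1) (List.replicate q i ++ [k]))
              i a := by
          funext k
          by_cases hk : k = i
          · subst hk
            rw [update_self]
            have : List.replicate q k ++ [k] = k :: List.replicate q k := by
              rw [← List.replicate_succ, ← List.replicate_succ']
            rw [this]
            exact hA k
          · rw [update_of_ne hk]
            simp [hk]
        rw [hC]
        apply hG.abs
        intro k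
        by_cases hk : k = i
        · simp [hk, hb0]
        · simp only [hk, if_false]
          exact hB k hk
      · show R (f (fun k => Tr f L m ((j :: τ) ++ [k]))) (f (fun k => Tr f L (m + 1) (τ ++ [k])))
        apply hG.comp
        intro k
        apply ih (τ ++ [k]) (by simp; omega)
        by_cases hlt : τ.length < q
        · left
          simp; omega
        · right
          rintro ⟨i, hi⟩
          have h3 : List.replicate q i <+: τ := by
            refine List.prefix_of_prefix_length_le hi (List.prefix_append τ [k]) ?_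
            simp; omega
          rcases hor with h4 | h4
          · exact h ⟨by omega, i, h3⟩
          · exact h4 ⟨i, h3⟩
  obtain ⟨m, rfl⟩ : ∃ m, M = m + 1 := ⟨M - 1, by omega⟩
  refine ⟨Tr f L (m + 1) [], ?_, ?_⟩
  · exact Tr_mem hPf _ _ fun τ _ => hPL _
  · have h1 := fun j => key m [] (by simp) (Or.inl (by simp)) j
    have h2 : Tr f L (m + 1) [] = f (fun _ => Tr f L (m + 1) []) := (hG.idem _).symm
    have h3 : R (f (fun j => Tr f L m ([] ++ [j]))) (f (fun _ => Tr f L (m + 1) [])) :=
      hG.comp _ _ h1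
    rw [← h2] at h3
    exact h3

end tree

/-! ## Labelling the words -/

section label

variable {n : ℕ}

/-- shift -/
def sh (y : ℕ → Fin n) : ℕ → Fin n := fun i => y (i + 1)

/-- length of the initial run, cut off at `k`. -/
def rc : ℕ → (ℕ → Fin n) → ℕ
  | 0, _ => 0
  | k + 1, y => if y 1 = y 0 then rc k (sh y) + 1 else 1

/-- the level function, cut off at `k`. -/
def mu (q : ℕ) : ℕ → (ℕ → Fin n) → ℕ
  | 0, _ => 0
  | k + 1, y => min (q - rc q y) (1 + mu q k (sh y))

/-- the colour of a position. -/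
def cc (q : ℕ) (y : ℕ → Fin n) : ℕ := n * rc q y + (y 0).val

/-- the marked positions: interior local minima of the colour. -/
def Mk (q d : ℕ) (y : ℕ → Fin n) : Prop :=
  cc q (sh y) < cc q y ∧ cc q (sh y) < cc q (sh (sh y)) ∧ mu q (d + 1) (sh (sh y)) ≠ d

/-- the positions labelled by the base of the triangle. -/
def T0 (q d : ℕ) (y : ℕ → Fin n) : Prop :=
  mu q (d + 1) (sh y) = d ∨ (mu q (d + 1) (sh y) = d + 1 ∧ Mk q d y)

open Classical in
/-- parity of the distance to the next `T0` position. -/
noncomputable def par (q d : ℕ) : ℕ → (ℕ → Fin n) → Bool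
  | 0, _ => false
  | k + 1, y => if T0 q d (sh y) then false else !(par q d k (sh y))

open Classical in
/-- the label. -/
noncomputable def lam {A : Type*} (p : ℕ → A) (t1 t2 : A) (q d W : ℕ) (y : ℕ → Fin n) : A :=
  if mu q (d + 1) (sh y) ≤ d then p (mu q (d + 1) (sh y))
  else if Mk q d y then p d
  else if par q d W y = true then t1 else t2

theorem rc_trunc : ∀ (k : ℕ) (y : ℕ → Fin n), rc k y = min k (rc (k + 1) y)
  | 0, y => by simp [rc]
  | k + 1, y => by
      have ih := rc_trunc k (sh y)
      rw [rc, rc]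
      split_ifs
      · omega
      · omega

theorem rc_pos (k : ℕ) (y : ℕ → Fin n) : 1 ≤ rc (k + 1) y := by
  rw [rc]; split_ifs <;> omega

theorem rc_le : ∀ (k : ℕ) (y : ℕ → Fin n), rc k y ≤ k
  | 0, y => by simp [rc]
  | k + 1, y => by
      have ih := rc_le k (sh y)
      rw [rc]; split_ifs <;> omega

theorem rc_eq {q : ℕ} (hq : 1 ≤ q) (y : ℕ → Fin n) (h : y 1 = y 0) :
    rc q y = min q (rc q (sh y) + 1) := by
  obtain ⟨k, rfl⟩ : ∃ k, q = k + 1 := ⟨q - 1, by omega⟩
  have ih := rc_trunc k (sh y)
  rw [rc, if_pos h]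
  omega

theorem rc_ne {q : ℕ} (hq : 1 ≤ q) (y : ℕ → Fin n) (h : y 1 ≠ y 0) : rc q y = 1 := by
  obtain ⟨k, rfl⟩ : ∃ k, q = k + 1 := ⟨q - 1, by omega⟩
  rw [rc, if_neg h]

theorem mu_trunc (q : ℕ) : ∀ (k : ℕ) (y : ℕ → Fin n), mu q k y = min k (mu q (k + 1) y)
  | 0, y => by simp [mu]
  | k + 1, y => by
      have ih := mu_trunc q k (sh y)
      rw [mu, mu]
      omega

theorem mu_le (q : ℕ) : ∀ (k : ℕ) (y : ℕ → Fin n), mu q k y ≤ k
  | 0, y => by simp [mu]
  | k + 1, y => by
      have ih := mu_le q k (sh y)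
      rw [mu]; omega

theorem mu_eq (q d : ℕ) (y : ℕ → Fin n) :
    mu q (d + 1) y = min (min (q - rc q y) (1 + mu q (d + 1) (sh y))) (d + 1) := by
  have h := mu_trunc q d (sh y)
  rw [mu]
  rw [h]
  omega

theorem mu_lower {q : ℕ} (hq : 1 ≤ q) (d : ℕ) : ∀ (ρ : ℕ), ρ < q → ∀ y : ℕ → Fin n,
    rc q y = ρ → min (min (q - ρ) ρ) (d + 1) ≤ mu q (d + 1) y := by
  intro ρ
  induction ρ with
  | zero => intro _ y _; simp
  | succ ρ ih =>
    intro hρ y hy
    by_cases h : y 1 = y 0
    · have h1 := rc_eq hq y h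
      have h2 := ih (by omega) (sh y) (by omega)
      have h3 := mu_eq q d y
      omega
    · have h1 := rc_ne hq y h
      have h3 := mu_eq q d y
      omega

theorem mu_up {q d : ℕ} (hq : q = 2 * d + 3) (y : ℕ → Fin n) (hr : rc q y < q)
    (h : mu q (d + 1) y = q - rc q y) (hd : mu q (d + 1) y ≤ d) :
    y 1 = y 0 ∧ rc q (sh y) = rc q y - 1 ∧ mu q (d + 1) (sh y) = mu q (d + 1) y + 1 := by
  have hq1 : 1 ≤ q := by omega
  have h1 : y 1 = y 0 := by
    by_contra hne
    have := rc_ne hq1 y hne
    omega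
  have h2 := rc_eq hq1 y h1
  have h3 : rc q (sh y) = rc q y - 1 := by omega
  have h4 := mu_lower hq1 d (rc q (sh y)) (by omega) (sh y) rfl
  have h5 := mu_eq q d (sh y)
  refine ⟨h1, h3, ?_⟩
  omega

theorem cc_lt (hn : 0 < n) (q : ℕ) (y : ℕ → Fin n) : cc q y < n * (q + 1) := by
  have h1 := rc_le q y
  have h2 := (y 0).isLt
  unfold cc
  calc n * rc q y + (y 0).val < n * rc q y + n := by omega
    _ ≤ n * q + n := by
        have := Nat.mul_le_mul_left n h1
        omega
    _ = n * (q + 1) := by ring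

/-- consecutive colours differ. -/
theorem cc_ne {q : ℕ} (hq : 1 ≤ q) (y : ℕ → Fin n) (hr : rc q y < q) :
    cc q y ≠ cc q (sh y) := by
  intro h
  unfold cc at h
  have hy0 := (y 0).isLt
  have hy1 := (y 1).isLt
  have hs : (sh y) 0 = y 1 := rfl
  rw [hs] at h
  by_cases h1 : y 1 = y 0
  · have h2 := rc_eq hq y h1
    have h3 : rc q y = rc q (sh y) + 1 := by omega
    rw [h3, h1, Nat.mul_add] at h
    omega
  · apply h1
    have h4 : (n * rc q y + (y 0).val) % n = (n * rc q (sh y) + (y 1).val) % n := by rw [h]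
    rw [Nat.mul_add_mod, Nat.mul_add_mod, Nat.mod_eq_of_lt hy0, Nat.mod_eq_of_lt hy1] at h4
    exact Fin.ext h4.symm

theorem num (c : ℕ → ℕ) (C N : ℕ) (hb : ∀ t, c t < C) (hp : ∀ t, t < N → c t ≠ c (t + 1))
    (hm : ∀ t, t + 1 < N → c (t + 1) < c t → c (t + 2) < c (t + 1)) : N ≤ 2 * C + 2 := by
  by_contra hN
  push Not at hN
  by_cases h : ∃ t, t ≤ C ∧ c (t + 1) < c t
  · obtain ⟨t, ht, hlt⟩ := h
    have h1 : ∀ s, s ≤ C → c (t + s + 1) < c (t + s) ∧ c (t + s) + s ≤ c t := by
      intro s
      induction s with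
      | zero => intro _; exact ⟨hlt, le_refl _⟩
      | succ s ih =>
        intro hs
        obtain ⟨i1, i2⟩ := ih (by omega)
        have h2 := hm (t + s) (by omega) i1
        have e1 : t + (s + 1) = t + s + 1 := by omega
        rw [e1]
        exact ⟨h2, by omega⟩
    have h3 := (h1 C le_rfl).2
    have h4 := hb t
    omega
  · push Not at h
    have h1 : ∀ t, t ≤ C → t ≤ c t := by
      intro t
      induction t with
      | zero => intro _; exact Nat.zero_le _
      | succ t ih =>
        intro ht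
        have h2 := ih (by omega)
        have h3 := h t (by omega)
        have h4 := hp t (by omega)
        omega
    have h3 := h1 C le_rfl
    have h4 := hb C
    omega

/-- a `T0` position comes up within bounded time. -/
theorem wait {q d : ℕ} (hn : 0 < n) (hq : 1 ≤ q) (y : ℕ → Fin n)
    (hy : mu q (d + 1) (sh y) = d + 1) :
    ∃ t, 1 ≤ t ∧ t ≤ 2 * (n * (q + 1)) + 5 ∧ T0 q d (sh^[t] y) := by
  by_contra hcon
  push Not at hcon
  set N := 2 * (n * (q + 1)) + 5 with hN
  have gs : ∀ t, sh^[t + 1] y = sh (sh^[t] y) := fun t => Function.iterate_succ_apply' sh t y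
  have lev : ∀ t, t ≤ N → mu q (d + 1) (sh (sh^[t] y)) = d + 1 := by
    intro t
    induction t with
    | zero => intro _; exact hy
    | succ t ih =>
      intro ht
      have h1 := ih (by omega)
      have h2 := mu_eq q d (sh (sh^[t] y))
      have h3 := hcon (t + 1) (by omega) ht
      rw [gs] at h3 ⊢
      have h4 := mu_le q (d + 1) (sh (sh (sh^[t] y)))
      by_contra h5
      apply h3
      left
      omega
  have hrc : ∀ t, t ≤ N → rc q (sh (sh^[t] y)) < q := by
    intro t ht
    have h1 := lev t ht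
    have h2 := mu_eq q d (sh (sh^[t] y))
    omega
  have hmain := num (fun t => cc q (sh^[t + 1] y)) (n * (q + 1)) N
    (fun t => cc_lt hn q _)
    (by
      intro t ht
      show cc q (sh^[t + 1] y) ≠ cc q (sh^[t + 1 + 1] y)
      rw [gs (t + 1), gs t]
      exact cc_ne hq _ (hrc t (by omega)))
    (by
      intro t ht hlt
      have hlt' : cc q (sh (sh^[t + 1] y)) < cc q (sh^[t + 1] y) := by
        rw [← gs (t + 1)]; exact hlt
      show cc q (sh^[t + 1 + 1 + 1] y) < cc q (sh^[t + 1 + 1] y)
      have h1 := hcon (t + 1) (by omega) (by omega)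
      have h2 := lev (t + 1) (by omega)
      have h3 : ¬ Mk q d (sh^[t + 1] y) := fun hM => h1 (Or.inr ⟨h2, hM⟩)
      have h4 := lev (t + 2) (by omega)
      rw [gs (t + 1)] at h4
      have h5 : mu q (d + 1) (sh (sh (sh^[t + 1] y))) ≠ d := by omega
      have h6 : ¬ cc q (sh (sh^[t + 1] y)) < cc q (sh (sh (sh^[t + 1] y))) := by
        intro h6
        exact h3 ⟨hlt', h6, h5⟩
      have h7 : cc q (sh (sh^[t + 1] y)) ≠ cc q (sh (sh (sh^[t + 1] y))) := by
        have := cc_ne hq (sh (sh^[t + 1] y)) (hrc (t + 1) (by omega))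
        exact this
      rw [gs (t + 1 + 1), gs (t + 1)]
      omega)
  omega

theorem par_stable (q d : ℕ) : ∀ (k : ℕ) (y : ℕ → Fin n),
    (∃ t, 1 ≤ t ∧ t ≤ k ∧ T0 q d (sh^[t] y)) → par q d k y = par q d (k + 1) y
  | 0, y => by rintro ⟨t, h1, h2, _⟩; omega
  | k + 1, y => by
      rintro ⟨t, h1, h2, h3⟩
      rw [par, par]
      by_cases h : T0 q d (sh y)
      · simp [h]
      · simp only [h, if_false]
        rw [par_stable q d k (sh y)]
        obtain ⟨s, rfl⟩ : ∃ s, t = s + 1 := ⟨t - 1, by omega⟩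
        have h4 : sh^[s + 1] y = sh^[s] (sh y) := Function.iterate_succ_apply sh s y
        rw [h4] at h3
        refine ⟨s, ?_, by omega, h3⟩
        by_contra hs
        have : s = 0 := by omega
        subst this
        exact h h3

theorem step {A : Type*} {R : A → A → Prop} (hsymm : ∀ x y, R x y → R y x) (p : ℕ → A)
    (t1 t2 : A) {q d : ℕ} (hn : 0 < n) (hq : q = 2 * d + 3)
    (hp : ∀ i, i < d → R (p i) (p (i + 1)))
    (h01 : R (p d) t1) (h02 : R (p d) t2) (h12 : R t1 t2)
    (y : ℕ → Fin n) (hr : rc q (sh y) < q) :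
    R (lam p t1 t2 q d (2 * (n * (q + 1)) + 6) y)
      (lam p t1 t2 q d (2 * (n * (q + 1)) + 6) (sh y)) := by
  have hq1 : 1 ≤ q := by omega
  have hle := mu_le q (d + 1) (sh y)
  have hle2 := mu_le q (d + 1) (sh (sh y))
  have hme := mu_eq q d (sh y)
  unfold lam
  by_cases hA : mu q (d + 1) (sh y) ≤ d
  · rw [if_pos hA]
    by_cases hB : mu q (d + 1) (sh y) = 1 + mu q (d + 1) (sh (sh y))
    · rw [if_pos (by omega : mu q (d + 1) (sh (sh y)) ≤ d)]
      apply hsymm
      rw [hB, Nat.add_comm 1]
      exact hp _ (by omega)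
    · have hC : mu q (d + 1) (sh y) = q - rc q (sh y) := by omega
      obtain ⟨e1, e2, e3⟩ := mu_up hq (sh y) hr hC hA
      by_cases hD : mu q (d + 1) (sh y) = d
      · have hE : ¬ mu q (d + 1) (sh (sh y)) ≤ d := by omega
        have hF : ¬ Mk q d (sh y) := by
          rintro ⟨_, hF, _⟩
          have e4 : sh (sh y) 1 = sh (sh y) 0 := by
            by_contra hne
            have := rc_ne hq1 (sh (sh y)) hne
            omega
          have e5 := rc_eq hq1 (sh (sh y)) e4
          have e6 : rc q (sh (sh y)) = rc q (sh (sh (sh y))) + 1 := by omega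
          unfold cc at hF
          have e7 : (sh (sh (sh y))) 0 = sh (sh y) 1 := rfl
          rw [e7, e4, e6, Nat.mul_add] at hF
          omega
        rw [if_neg hE, if_neg hF, hD]
        split_ifs
        · exact h01
        · exact h02
      · rw [if_pos (by omega : mu q (d + 1) (sh (sh y)) ≤ d), e3]
        exact hp _ (by omega)
  · rw [if_neg hA]
    have hA' : mu q (d + 1) (sh y) = d + 1 := by omega
    by_cases hB : mu q (d + 1) (sh (sh y)) ≤ d
    · have hB' : mu q (d + 1) (sh (sh y)) = d := by omega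
      have hF : ¬ Mk q d y := fun h => h.2.2 hB'
      rw [if_neg hF, if_pos hB, hB']
      split_ifs
      · exact hsymm _ _ h01
      · exact hsymm _ _ h02
    · rw [if_neg hB]
      have hB' : mu q (d + 1) (sh (sh y)) = d + 1 := by omega
      by_cases hM : Mk q d y
      · have hM2 : ¬ Mk q d (sh y) := by
          intro h
          have h1 := h.1
          have h2 := hM.2.1
          omega
        rw [if_pos hM, if_neg hM2]
        split_ifs
        · exact h01
        · exact h02
      · rw [if_neg hM]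
        by_cases hM2 : Mk q d (sh y)
        · rw [if_pos hM2]
          split_ifs
          · exact hsymm _ _ h01
          · exact hsymm _ _ h02
        · rw [if_neg hM2]
          have hT : ¬ T0 q d (sh y) := by
            rintro (h | h)
            · omega
            · exact hM2 h.2
          have hpar : par q d (2 * (n * (q + 1)) + 6) y =
              !(par q d (2 * (n * (q + 1)) + 6) (sh y)) := by
            have h1 : par q d (2 * (n * (q + 1)) + 6) y =
              !(par q d (2 * (n * (q + 1)) + 5) (sh y)) := by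
              rw [par, if_neg hT]
            rw [h1, par_stable q d (2 * (n * (q + 1)) + 5) (sh y) (wait hn hq1 (sh y) hB')]
          rw [hpar]
          cases par q d (2 * (n * (q + 1)) + 6) (sh y)
          · simpa using h12
          · simpa using hsymm _ _ h12

/-! ### locality -/

theorem sh_agree {m : ℕ} {y y' : ℕ → Fin n} (h : ∀ i, i < m + 1 → y i = y' i) :
    ∀ i, i < m → sh y i = sh y' i := fun i hi => h (i + 1) (by omega)

theorem rc_loc : ∀ (k : ℕ) (y y' : ℕ → Fin n), (∀ i, i < k + 1 → y i = y' i) → rc k y = rc k y'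
  | 0, _, _, _ => rfl
  | k + 1, y, y', h => by
      rw [rc, rc, h 0 (by omega), h 1 (by omega), rc_loc k (sh y) (sh y') (sh_agree h)]

theorem mu_loc (q : ℕ) : ∀ (k : ℕ) (y y' : ℕ → Fin n), (∀ i, i < q + 1 + k → y i = y' i) →
    mu q k y = mu q k y'
  | 0, _, _, _ => rfl
  | k + 1, y, y', h => by
      rw [mu, mu, mu_loc q k (sh y) (sh y') (sh_agree (m := q + 1 + k) h),
        rc_loc q y y' (fun i hi => h i (by omega))]

theorem cc_loc (q : ℕ) (y y' : ℕ → Fin n) (h : ∀ i, i < q + 1 → y i = y' i) :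
    cc q y = cc q y' := by
  unfold cc
  rw [rc_loc q y y' h, h 0 (by omega)]

theorem Mk_loc (q d : ℕ) (y y' : ℕ → Fin n) (h : ∀ i, i < q + d + 4 → y i = y' i) :
    Mk q d y ↔ Mk q d y' := by
  have h1 : ∀ i, i < q + d + 3 → sh y i = sh y' i := sh_agree (m := q + d + 3) h
  have h2 : ∀ i, i < q + d + 2 → sh (sh y) i = sh (sh y') i := sh_agree (m := q + d + 2) h1
  unfold Mk
  rw [cc_loc q y y' (fun i hi => h i (by omega)),
    cc_loc q (sh y) (sh y') (fun i hi => h1 i (by omega)),
    cc_loc q (sh (sh y)) (sh (sh y')) (fun i hi => h2 i (by omega)),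
    mu_loc q (d + 1) (sh (sh y)) (sh (sh y')) (fun i hi => h2 i (by omega))]

theorem T0_loc (q d : ℕ) (y y' : ℕ → Fin n) (h : ∀ i, i < q + d + 4 → y i = y' i) :
    T0 q d y ↔ T0 q d y' := by
  have h1 : ∀ i, i < q + d + 3 → sh y i = sh y' i := sh_agree (m := q + d + 3) h
  unfold T0
  rw [Mk_loc q d y y' h, mu_loc q (d + 1) (sh y) (sh y') (fun i hi => h1 i (by omega))]

theorem par_loc (q d : ℕ) : ∀ (k : ℕ) (y y' : ℕ → Fin n),
    (∀ i, i < q + d + 4 + k → y i = y' i) → par q d k y = par q d k y'
  | 0, _, _, _ => rfl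
  | k + 1, y, y', h => by
      have h1 : ∀ i, i < q + d + 4 + k → sh y i = sh y' i := sh_agree (m := q + d + 4 + k) h
      have h2 := T0_loc q d (sh y) (sh y') (fun i hi => h1 i (by omega))
      rw [par, par, par_loc q d k (sh y) (sh y') h1]
      by_cases h3 : T0 q d (sh y)
      · simp [h3, h2.1 h3]
      · have h4 : ¬ T0 q d (sh y') := fun h => h3 (h2.2 h)
        simp [h3, h4]

theorem lam_loc {A : Type*} (p : ℕ → A) (t1 t2 : A) (q d W : ℕ) (y y' : ℕ → Fin n)
    (h : ∀ i, i < q + d + 4 + W → y i = y' i) :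
    lam p t1 t2 q d W y = lam p t1 t2 q d W y' := by
  have h1 : ∀ i, i < q + d + 3 + W → sh y i = sh y' i :=
    sh_agree (m := q + d + 3 + W) (fun i hi => h i (by omega))
  unfold lam
  rw [mu_loc q (d + 1) (sh y) (sh y') (fun i hi => h1 i (by omega)), par_loc q d W y y' h]
  have h2 := Mk_loc q d y y' (fun i hi => h i (by omega))
  by_cases h3 : Mk q d y
  · simp [h3, h2.1 h3]
  · have h4 : ¬ Mk q d y' := fun h => h3 (h2.2 h)
    simp [h3, h4]

/-! ### words as sequences -/

/-- extend a word to a sequence by a default letter. -/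
def ext (i0 : Fin n) (σ : List (Fin n)) : ℕ → Fin n := fun i => σ.getD i i0

theorem sh_ext (i0 x : Fin n) (σ : List (Fin n)) : sh (ext i0 (x :: σ)) = ext i0 σ := by
  funext i
  simp [sh, ext]

theorem ext_append (i0 : Fin n) (σ τ : List (Fin n)) (i : ℕ) (hi : i < σ.length) :
    ext i0 (σ ++ τ) i = ext i0 σ i := by
  unfold ext
  exact List.getD_append _ _ _ _ hi

theorem rc_replicate (i0 i : Fin n) (σ : List (Fin n)) :
    ∀ q : ℕ, ∀ k, q ≤ k → rc k (ext i0 (List.replicate q i ++ σ)) ≥ q := by
  intro q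
  induction q with
  | zero => intro k _; exact Nat.zero_le _
  | succ q ih =>
    intro k hk
    obtain ⟨k', rfl⟩ : ∃ k', k = k' + 1 := ⟨k - 1, by omega⟩
    by_cases hq0 : q = 0
    · subst hq0
      exact rc_pos _ _
    · have h1 : ext i0 (List.replicate (q + 1) i ++ σ) 1 = ext i0 (List.replicate (q + 1) i ++ σ) 0 := by
        obtain ⟨q', rfl⟩ : ∃ q', q = q' + 1 := ⟨q - 1, by omega⟩
        simp [ext, List.replicate_succ]
      rw [rc, if_pos h1]
      have h2 : sh (ext i0 (List.replicate (q + 1) i ++ σ)) = ext i0 (List.replicate q i ++ σ) := by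
        rw [List.replicate_succ, List.cons_append, sh_ext]
      rw [h2]
      have := ih k' (by omega)
      omega

theorem rc_replicate_ne (i0 i k : Fin n) (hk : k ≠ i) (σ : List (Fin n)) (Q : ℕ) (hQ : 1 ≤ Q) :
    ∀ q : ℕ, 1 ≤ q → q ≤ Q → rc Q (ext i0 (List.replicate q i ++ k :: σ)) = q := by
  intro q
  induction q with
  | zero => intro h; omega
  | succ q ih =>
    intro _ hq
    by_cases hq0 : q = 0
    · subst hq0
      apply rc_ne hQ
      simpa [ext] using hk
    · have h1 : ext i0 (List.replicate (q + 1) i ++ k :: σ) 1 =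
          ext i0 (List.replicate (q + 1) i ++ k :: σ) 0 := by
        obtain ⟨q', rfl⟩ : ∃ q', q = q' + 1 := ⟨q - 1, by omega⟩
        simp [ext, List.replicate_succ]
      rw [rc_eq hQ _ h1]
      have h2 : sh (ext i0 (List.replicate (q + 1) i ++ k :: σ)) =
          ext i0 (List.replicate q i ++ k :: σ) := by
        rw [List.replicate_succ, List.cons_append, sh_ext]
      rw [h2, ih (by omega) (by omega)]
      omega

/-- if the run has full length then the word starts with a constant block. -/
theorem prefix_of_rc (i0 : Fin n) : ∀ (q : ℕ) (τ : List (Fin n)), q ≤ τ.length →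
    (∀ k, k ≤ q → rc q (ext i0 τ) ≥ k → ∃ i, List.replicate k i <+: τ ∧
      (1 ≤ k → i = ext i0 τ 0)) := by
  intro q
  induction q with
  | zero =>
    intro τ _ k hk _
    have : k = 0 := by omega
    subst this
    exact ⟨i0, by simp, by omega⟩
  | succ q ih =>
    intro τ hτ k hk hrc
    match τ, hτ with
    | [], h => simp at h
    | x :: τ, h =>
      match k, hk with
      | 0, _ => exact ⟨i0, by simp, by omega⟩
      | 1, _ =>
        refine ⟨x, ?_, ?_⟩
        · rw [List.replicate_succ]; exact (List.cons_prefix_cons).2 ⟨rfl, by simp⟩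
        · intro _; simp [ext]
      | k + 2, hk =>
        refine ⟨x, ?_, ?_⟩
        · rw [rc] at hrc
          split_ifs at hrc with h1
          · rw [sh_ext] at hrc
            simp only [List.length_cons] at h
            obtain ⟨i, hi, hi0⟩ := ih τ (by omega) (k + 1) (by omega) (by omega)
            have h2 : i = x := by
              rw [hi0 (by omega)]
              have h3 : ext i0 (x :: τ) 1 = ext i0 τ 0 := by
                have := congrFun (sh_ext i0 x τ) 0
                exact this
              rw [← h3, h1]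
              simp [ext]
            subst h2
            rw [List.replicate_succ]
            exact (List.cons_prefix_cons).2 ⟨rfl, hi⟩
          · omega
        · intro _; simp [ext]

end label

/-! ## Walks -/

section walk

variable {A : Type*}

/-- there is a walk of length `k` from `x` to `y`. -/
def W (R : A → A → Prop) : ℕ → A → A → Prop
  | 0, x, y => x = y
  | k + 1, x, y => ∃ z, R x z ∧ W R k z y

theorem W_trans {R : A → A → Prop} : ∀ (k l : ℕ) (x y z : A), W R k x y → W R l y z →
    W R (k + l) x z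
  | 0, l, x, y, z, h1, h2 => by
      have h : x = y := h1
      subst h
      simpa using h2
  | k + 1, l, x, y, z, h1, h2 => by
      obtain ⟨u, hu, h3⟩ := h1
      have e : k + 1 + l = (k + l) + 1 := by omega
      rw [e]
      exact ⟨u, hu, W_trans k l u y z h3 h2⟩

theorem W_one {R : A → A → Prop} {x y : A} (h : R x y) : W R 1 x y := ⟨y, h, rfl⟩

theorem W_symm {R : A → A → Prop} (hs : ∀ x y, R x y → R y x) : ∀ (k : ℕ) (x y : A),
    W R k x y → W R k y x
  | 0, x, y, h => Eq.symm h
  | k + 1, x, y, ⟨z, hz, h⟩ => W_trans k 1 y z x (W_symm hs k z y h) (W_one (hs _ _ hz))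

theorem W_fun {R : A → A → Prop} : ∀ (k : ℕ) (x y : A), W R k x y →
    ∃ p : ℕ → A, p 0 = x ∧ p k = y ∧ ∀ i, i < k → R (p i) (p (i + 1))
  | 0, x, y, h => ⟨fun _ => x, rfl, h, fun i hi => absurd hi (Nat.not_lt_zero i)⟩
  | k + 1, x, y, ⟨z, hz, h⟩ => by
      obtain ⟨p, h0, hk, hp⟩ := W_fun k z y h
      refine ⟨fun i => Nat.casesOn i x p, rfl, hk, ?_⟩
      intro i hi
      cases i with
      | zero => show R x (p 0); rw [h0]; exact hz
      | succ i => exact hp i (by omega)

theorem W_of_fun {R : A → A → Prop} : ∀ (k : ℕ) (p : ℕ → A),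
    (∀ i, i < k → R (p i) (p (i + 1))) → W R k (p 0) (p k)
  | 0, _, _ => rfl
  | k + 1, p, h => ⟨p 1, h 0 (by omega),
      W_of_fun k (fun i => p (i + 1)) fun i hi => h (i + 1) (by omega)⟩

theorem W_f {n : ℕ} {R : A → A → Prop} {f : (Fin n → A) → A}
    (hc : ∀ x y : Fin n → A, (∀ i, R (x i) (y i)) → R (f x) (f y)) :
    ∀ (k : ℕ) (x y : Fin n → A), (∀ i, W R k (x i) (y i)) → W R k (f x) (f y)
  | 0, x, y, h => by
      have : x = y := funext h
      subst this
      rfl
  | k + 1, x, y, h => by
      choose z hz hw using h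
      exact ⟨f z, hc _ _ hz, W_f hc k z y hw⟩

theorem W_even {R : A → A → Prop} {a b : A} (h1 : R a b) (h2 : R b a) : ∀ j : ℕ, W R (2 * j) a a
  | 0 => rfl
  | j + 1 => by
      have e : 2 * (j + 1) = 2 * j + 1 + 1 := by ring
      rw [e]
      exact ⟨b, h1, a, h2, W_even h1 h2 j⟩

theorem W_reach {R : A → A → Prop} : ∀ (k : ℕ) (x y : A), W R k x y → Relation.ReflTransGen R x y
  | 0, _, _, h => by
      have h := Eq.symm h
      subst h
      exact Relation.ReflTransGen.refl
  | k + 1, _, y, ⟨z, hz, h⟩ => Relation.ReflTransGen.head hz (W_reach k z y h)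

/-- the case of a triangle at distance `d ≥ 1` from `a`. -/
theorem theoremA' {n : ℕ} (hn : 0 < n) {R : A → A → Prop} {f : (Fin n → A) → A} {a : A}
    (hG : Good R f a) {d : ℕ} (hd : 1 ≤ d) {t0 t1 t2 : A} (hw : W R d a t0) (h01 : R t0 t1)
    (h12 : R t1 t2) (h20 : R t2 t0) : ∃ x K, W R K a x ∧ R x x := by
  obtain ⟨p, hp0, hpd, hp⟩ := W_fun d a t0 hw
  have hs := hG.symm
  have ha1 : R a (p 1) := by
    have := hp 0 (by omega)
    rwa [hp0] at this
  -- reachability
  let Reach : A → Prop := fun x => ∃ K0, ∀ K, K0 ≤ K → W R K a x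
  have Ra : Reach a := by
    refine ⟨2 * d + 3, fun K hK => ?_⟩
    rcases Nat.even_or_odd' K with ⟨j, rfl | rfl⟩
    · exact W_even ha1 (hs _ _ ha1) j
    · obtain ⟨e, he⟩ : ∃ e, 2 * j + 1 = (d + (1 + (1 + (1 + d)))) + 2 * e := ⟨j - d - 1, by omega⟩
      rw [he]
      refine W_trans _ _ a a a ?_ (W_even ha1 (hs _ _ ha1) e)
      exact W_trans _ _ _ _ _ hw (W_trans _ _ _ _ _ (W_one h01) (W_trans _ _ _ _ _ (W_one h12)
        (W_trans _ _ _ _ _ (W_one h20) (W_symm hs _ _ _ hw))))
  have Rn : ∀ x y, Reach x → R x y → Reach y := by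
    rintro x y ⟨K0, hK0⟩ hxy
    refine ⟨K0 + 1, fun K hK => ?_⟩
    obtain ⟨e, rfl⟩ : ∃ e, K = e + 1 := ⟨K - 1, by omega⟩
    exact W_trans _ _ _ _ _ (hK0 e (by omega)) (W_one hxy)
  have Rf : ∀ x : Fin n → A, (∀ k, Reach (x k)) → Reach (f x) := by
    intro x hx
    choose K0 hK0 using hx
    refine ⟨Finset.univ.sup K0, fun K hK => ?_⟩
    have h1 := W_f hG.comp K (fun _ => a) x (fun i =>
      hK0 i K (le_trans (Finset.le_sup (f := K0) (Finset.mem_univ i)) hK))
    rwa [hG.idem] at h1
  have Rp : ∀ i, i ≤ d → Reach (p i) := by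
    intro i
    induction i with
    | zero => intro _; rw [hp0]; exact Ra
    | succ i ih => intro hi; exact Rn _ _ (ih (by omega)) (hp i (by omega))
  have R0 : Reach t0 := hpd ▸ Rp d le_rfl
  have R1 : Reach t1 := Rn _ _ R0 h01
  have R2 : Reach t2 := Rn _ _ R1 h12
  -- parameters
  obtain ⟨q, hq⟩ : ∃ q, q = 2 * d + 3 := ⟨_, rfl⟩
  obtain ⟨V, hV⟩ : ∃ V, V = 2 * (n * (q + 1)) + 6 := ⟨_, rfl⟩
  let i0 : Fin n := ⟨0, hn⟩
  have key := tree hG (p 1) ha1 q (q + d + 4 + V + 1) (by omega)
    (fun σ => lam p t1 t2 q d V (ext i0 σ)) ?_ ?_ ?_ Reach Rf ?_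
  · obtain ⟨x, ⟨K0, hK0⟩, hx⟩ := key
    exact ⟨x, K0, hK0 K0 le_rfl, hx⟩
  · -- C1
    intro x i σ _
    have h1 := rc_replicate i0 i σ q q le_rfl
    have h2 := mu_eq q d (ext i0 (List.replicate q i ++ σ))
    have h3 : mu q (d + 1) (ext i0 (List.replicate q i ++ σ)) = 0 := by omega
    show lam p t1 t2 q d V (ext i0 (x :: (List.replicate q i ++ σ))) = a
    unfold lam
    rw [sh_ext, h3, if_pos (Nat.zero_le _), hp0]
  · -- C3
    intro i k σ hk _
    obtain ⟨Q, hQ⟩ : ∃ Q, q = Q + 1 := ⟨q - 1, by omega⟩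
    have h1 := rc_replicate_ne i0 i k hk σ q (by omega) Q (by omega) (by omega)
    have h2 := mu_eq q d (ext i0 (List.replicate Q i ++ k :: σ))
    have h3 : mu q (d + 1) (ext i0 (List.replicate Q i ++ k :: σ)) = 1 := by omega
    show R a (lam p t1 t2 q d V (ext i0 (List.replicate q i ++ k :: σ)))
    have h4 : List.replicate q i ++ k :: σ = i :: (List.replicate Q i ++ k :: σ) := by
      rw [hQ, List.replicate_succ, List.cons_append]
    rw [h4]
    unfold lam
    rw [sh_ext, h3, if_pos hd]
    exact ha1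
  · -- C4
    intro x τ k hτ hne
    show R (lam p t1 t2 q d V (ext i0 (x :: τ))) (lam p t1 t2 q d V (ext i0 (τ ++ [k])))
    have h1 : lam p t1 t2 q d V (ext i0 (x :: τ)) = lam p t1 t2 q d V (ext i0 (x :: (τ ++ [k]))) := by
      apply lam_loc
      intro i hi
      have h2 := ext_append i0 (x :: τ) [k] i (by simp; omega)
      rw [List.cons_append] at h2
      exact h2.symm
    rw [h1]
    have h3 : rc q (sh (ext i0 (x :: (τ ++ [k])))) < q := by
      rw [sh_ext]
      by_contra h4
      push Not at h4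
      obtain ⟨i, hi, _⟩ := prefix_of_rc i0 q (τ ++ [k]) (by simp; omega) q le_rfl h4
      apply hne
      exact ⟨i, List.prefix_of_prefix_length_le hi (List.prefix_append τ [k]) (by simp; omega)⟩
    have h5 := step hs p t1 t2 hn hq hp (by rw [hpd]; exact h01) (by rw [hpd]; exact hs _ _ h20) h12
      (ext i0 (x :: (τ ++ [k]))) h3
    rw [sh_ext, ← hV] at h5
    exact h5
  · intro σ
    show Reach (lam p t1 t2 q d V (ext i0 σ))
    unfold lam
    split_ifs with h1 h2 h3
    · exact Rp _ h1
    · exact Rp _ le_rfl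
    · exact R1
    · exact R2

/-- the case of a triangle connected to `a`. -/
theorem theoremA {n : ℕ} (hn : 0 < n) {R : A → A → Prop} {f : (Fin n → A) → A} {a : A}
    (hG : Good R f a) {d : ℕ} {t0 t1 t2 : A} (hw : W R d a t0) (h01 : R t0 t1)
    (h12 : R t1 t2) (h20 : R t2 t0) : ∃ x K, W R K a x ∧ R x x := by
  rcases Nat.eq_zero_or_pos d with h | h
  · subst h
    have h : a = t0 := hw
    subst h
    exact theoremA' hn hG (le_refl 1) (W_one h01) h12 h20 h01
  · exact theoremA' hn hG h hw h01 h12 h20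

/-- the cube of a relation. -/
def Cu (R : A → A → Prop) : A → A → Prop := fun x y => ∃ u v, R x u ∧ R u v ∧ R v y

theorem cube {n : ℕ} {R : A → A → Prop} {f : (Fin n → A) → A} {a : A}
    (hG : Good R f a) : Good (Cu R) f a where
  symm := by
    rintro x y ⟨u, v, h1, h2, h3⟩
    exact ⟨v, u, hG.symm _ _ h3, hG.symm _ _ h2, hG.symm _ _ h1⟩
  idem := hG.idem
  comp := by
    intro x y h
    choose u v h1 h2 h3 using h
    exact ⟨f u, f v, hG.comp _ _ h1, hG.comp _ _ h2, hG.comp _ _ h3⟩
  abs := by
    intro j b h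
    choose u w h1 h2 h3 using h
    refine ⟨f (update u j a), f (update w j (u j)), hG.abs j u h1, ?_, ?_⟩
    · apply hG.comp
      intro i
      by_cases hi : i = j
      · subst hi; simpa using h1 i
      · simpa [hi] using h2 i
    · apply hG.comp
      intro i
      by_cases hi : i = j
      · subst hi; simpa using hG.symm _ _ (h1 i)
      · simpa [hi] using h3 i

theorem W_cube {R : A → A → Prop} : ∀ (k : ℕ) (x y : A), W R (3 * k) x y → W (Cu R) k x y
  | 0, _, _, h => h
  | k + 1, x, y, h => by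
      have e : 3 * (k + 1) = 3 * k + 1 + 1 + 1 := by ring
      rw [e] at h
      obtain ⟨u, hu, v, hv, w, hw, h'⟩ := h
      exact ⟨w, ⟨u, v, hu, hv, hw⟩, W_cube k w y h'⟩

theorem W_uncube {R : A → A → Prop} : ∀ (k : ℕ) (x y : A), W (Cu R) k x y → W R (3 * k) x y
  | 0, _, _, h => h
  | k + 1, x, y, ⟨w, ⟨u, v, hu, hv, hw⟩, h⟩ => by
      have e : 3 * (k + 1) = 3 * k + 1 + 1 + 1 := by ring
      rw [e]
      exact ⟨u, hu, v, hv, w, hw, W_uncube k w y h⟩

/-- **Main theorem**: a closed walk of odd length through `a` forces a loop. -/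
theorem main {n : ℕ} (hn : 0 < n) {f : (Fin n → A) → A} {a : A} : ∀ (m : ℕ) (R : A → A → Prop),
    Good R f a → W R (2 * m + 1) a a → ∃ x K, W R K a x ∧ R x x := by
  intro m
  induction m with
  | zero =>
    intro R _ h
    obtain ⟨z, hz, h⟩ := h
    have h : z = a := h
    subst h
    exact ⟨z, 0, rfl, hz⟩
  | succ m ih =>
    intro R hG h
    rcases Nat.eq_zero_or_pos m with hm | hm
    · subst hm
      obtain ⟨u, hu, v, hv, w, hw, h⟩ := h
      have h : w = a := h
      subst h
      exact theoremA hn hG (d := 0) rfl hu hv hw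
    · have h0 : ∃ b, R a b := by
        have e : 2 * (m + 1) + 1 = (2 * m + 2) + 1 := by ring
        rw [e] at h
        obtain ⟨z, hz, _⟩ := h
        exact ⟨z, hz⟩
      obtain ⟨b, hb⟩ := h0
      have h1 : W R (3 * (2 * m + 1)) a a := by
        have e : 3 * (2 * m + 1) = (2 * (m + 1) + 1) + 2 * (2 * m) := by ring
        rw [e]
        exact W_trans _ _ _ _ _ h (W_even hb (hG.symm _ _ hb) (2 * m))
      obtain ⟨x, K, hx, u, v, hu, hv, hw⟩ := ih (Cu R) (cube hG) (W_cube _ _ _ h1)
      exact theoremA hn hG (W_uncube _ _ _ hx) hu hv hw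

end walk

end Pool.Agent.N31.LoopOdd
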