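import Pool.Agent.N646.RG.Stm

/-!
Project RG (helper646), HITM2: most configurations have a good transversal.
-/

set_option autoImplicit false

namespace Pool.Agent.N31.RG_HITM2

open Finset Filter Topology Pool.Agent.N646.RG
open Pool.Agent.N646.RO (Rgh)

/-- Markov's inequality -/
theorem markov {α : Type} [DecidableEq α] (P E : Finset α) (W : α → ℝ) {a B : ℝ} (ha : 0 < a)
    (hE : E ⊆ P) (h0 : ∀ x ∈ P, 0 ≤ W x) (h1 : ∀ x ∈ E, a ≤ W x) (h2 : ∑ x ∈ P, W x ≤ a * B) :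
    (E.card : ℝ) ≤ B := by
  have h3 : (E.card : ℝ) * a ≤ ∑ x ∈ E, W x := by
    have := sum_le_sum h1
    rwa [sum_const, nsmul_eq_mul] at this
  have h4 : ∑ x ∈ E, W x ≤ ∑ x ∈ P, W x :=
    sum_le_sum_of_subset_of_nonneg hE fun x hx _ => h0 x hx
  have h5 : a * (E.card : ℝ) ≤ a * B := by linarith
  exact le_of_mul_le_mul_left h5 ha

/-- two forms coincide for few configurations -/
theorem coll {ι : Type} [Fintype ι] [DecidableEq ι] (f : ι → ℤ × ℤ) {M₀ : ℕ} (hM : 1 ≤ M₀) (T₁ : ℕ)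
    {x x' : ι} (hx : x ≠ x') :
    ((Fintype.piFinset (fun _ : ι => range T₁)).filter
      (fun H => sh (f x) (M₀ * H x) = sh (f x') (M₀ * H x'))).card * T₁ ≤ T₁ ^ Fintype.card ι := by
  classical
  have h1 : T₁ ^ Fintype.card ι = (Fintype.piFinset (fun _ : ι => range T₁)).card := by
    rw [Fintype.card_piFinset, prod_const, card_range, card_univ]
  have h2 : ((Fintype.piFinset (fun _ : ι => range T₁)).filter
      (fun H => sh (f x) (M₀ * H x) = sh (f x') (M₀ * H x'))).card * T₁ =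
      (((Fintype.piFinset (fun _ : ι => range T₁)).filter
      (fun H => sh (f x) (M₀ * H x) = sh (f x') (M₀ * H x'))) ×ˢ range T₁).card := by
    rw [card_product, card_range]
  rw [h1, h2]
  refine card_le_card_of_injOn (fun z => Function.update z.1 x' z.2) ?_ ?_
  · intro z hz
    rw [mem_coe, mem_product, mem_filter, Fintype.mem_piFinset] at hz
    rw [mem_coe, Fintype.mem_piFinset]
    intro y
    show Function.update z.1 x' z.2 y ∈ range T₁
    by_cases hy : y = x'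
    · subst hy
      rw [Function.update_self]
      exact hz.2
    · rw [Function.update_of_ne hy]
      exact hz.1.1 y
  · intro z hz z' hz' hzz
    rw [mem_coe, mem_product, mem_filter] at hz hz'
    have h3 : ∀ y, Function.update z.1 x' z.2 y = Function.update z'.1 x' z'.2 y := fun y =>
      congrFun hzz y
    have h4 : z.2 = z'.2 := by
      have := h3 x'
      rwa [Function.update_self, Function.update_self] at this
    have h5 : ∀ y, y ≠ x' → z.1 y = z'.1 y := by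
      intro y hy
      have := h3 y
      rwa [Function.update_of_ne hy, Function.update_of_ne hy] at this
    have h6 := hz.1.2
    have h7 := hz'.1.2
    rw [h5 x hx] at h6
    have h8 : sh (f x') (M₀ * z.1 x') = sh (f x') (M₀ * z'.1 x') := by rw [← h6, h7]
    have h9 := congrArg Prod.snd h8
    unfold sh at h9
    simp only [add_right_inj] at h9
    have h10 : M₀ * z.1 x' = M₀ * z'.1 x' := by exact_mod_cast h9
    have h11 : z.1 x' = z'.1 x' := Nat.eq_of_mul_eq_mul_left hM h10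
    refine Prod.ext (funext fun y => ?_) h4
    by_cases hy : y = x'
    · rw [hy]; exact h11
    · exact h5 y hy

theorem main (hH : S_HIT2) (h1 : S_E12) (k : ℕ) (h2 : S_E22 k) : S_HITM2 k := by
  classical
  intro T M hT hTM
  obtain ⟨K, s, hK, δ, c, hδ, hc, hHIT⟩ := hH T M hT hTM
  refine ⟨K, hK, ?_⟩
  intro M₀ hM₀ lam δ' hlam hδ'
  obtain ⟨C1, hC1, hE1⟩ := h1 T K s M₀ δ lam hT hK hδ hlam hM₀
  obtain ⟨C2, hC2, hE2⟩ := h2 T K M₀ δ lam hδ hlam hM₀
  obtain ⟨C3, hC3⟩ : ∃ C3, C3 = 3 * C1 / δ' := ⟨_, rfl⟩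
  have hC3p : 0 < C3 := by rw [hC3]; positivity
  obtain ⟨c4, hc4⟩ : ∃ c4, c4 = c ^ 2 / C3 := ⟨_, rfl⟩
  have hc4p : 0 < c4 := by rw [hc4]; positivity
  have hTK : (0 : ℝ) < ((T * K : ℕ) : ℝ) := by
    have : 0 < T * K := Nat.mul_pos hT hK
    exact_mod_cast this
  obtain ⟨q, hq⟩ : ∃ q, q = δ' * c4 / (3 * ((T * K : ℕ) : ℝ) ^ (k + 1) * C2) := ⟨_, rfl⟩
  have hqp : 0 < q := by rw [hq]; positivity
  obtain ⟨κ, hκ⟩ : ∃ κ, κ = min 1 (q ^ 2) := ⟨_, rfl⟩
  have hκp : 0 < κ := by rw [hκ]; exact lt_min one_pos (by positivity)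
  have hκ1 : κ ≤ 1 := by rw [hκ]; exact min_le_left _ _
  have hκq : Real.sqrt κ ≤ q := by
    rw [Real.sqrt_le_left hqp.le, hκ]
    exact min_le_right _ _
  have hlarge : ∀ᶠ N : ℕ in atTop, 3 * ((T * K : ℕ) : ℝ) ^ 2 / δ' + 1 ≤ lam * Real.log N := by
    have h3 : Tendsto (fun N : ℕ => lam * Real.log (N : ℝ)) atTop atTop :=
      (Real.tendsto_log_atTop.comp tendsto_natCast_atTop_atTop).const_mul_atTop hlam
    exact h3.eventually_ge_atTop _
  refine ⟨κ, hκp, ?_⟩
  filter_upwards [hHIT, hE1, hE2, eventually_ge_atTop 2, hlarge] with N hHIT hE1 hE2 hN hlarge T₁ hT1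
    hT3 f hf hloc
  have hlog : 0 < Real.log N := Real.log_pos (by exact_mod_cast (by omega : 1 < N))
  have hNp : (0 : ℝ) < N := by exact_mod_cast (by omega : 0 < N)
  have hf0 : ∀ x, Afm N (f x) := by
    intro x
    have h3 := hf x 0 (Nat.zero_le _)
    have h4 : sh (f x) (M₀ * 0) = f x := by
      unfold sh
      rw [Nat.mul_zero, Nat.cast_zero, add_zero]
    rwa [h4] at h3
  have kE1 := hE1 T₁ hT1 hT3 f hf0
  have kE2 := hE2 T₁ hT1 hT3 f hf0 κ hκp hκ1
  obtain ⟨X, hX⟩ : ∃ X : ℝ, X = N / (Real.log N) ^ (T * K) := ⟨_, rfl⟩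
  have hXp : 0 < X := by rw [hX]; positivity
  obtain ⟨P, hP⟩ : ∃ P : ℝ, P = (T₁ : ℝ) ^ (T * K) := ⟨_, rfl⟩
  have hPp : 0 ≤ P := by rw [hP]; positivity
  have hXP : (N : ℝ) * (T₁ / Real.log N) ^ (T * K) = X * P := by
    rw [hX, hP, div_pow]
    ring
  -- notation
  obtain ⟨Pf, hPf⟩ : ∃ Pf, Pf = Fintype.piFinset (fun _ : Fin T × Fin K => range T₁) := ⟨_, rfl⟩
  obtain ⟨b, hb⟩ : ∃ b : ℕ → ℝ, b = fun n : ℕ => (((range (⌊Real.log N⌋₊ + s + 1)).filter
      (fun j : ℕ => Rgh δ N (n - j))).card : ℝ) := ⟨_, rfl⟩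
  obtain ⟨R, hR⟩ : ∃ R : (Fin T × Fin K → ℕ) → Finset ℕ, R = fun H =>
      (IN N).filter (fun n : ℕ => ∀ x, Rgh δ N (ev (sh (f x) (M₀ * H x)) n)) := ⟨_, rfl⟩
  obtain ⟨Wf, hWf⟩ : ∃ Wf : (Fin T × Fin K → ℕ) → ℝ, Wf = fun H => ∑ n ∈ R H, b n ^ 2 :=
    ⟨_, rfl⟩
  obtain ⟨Q, hQ⟩ : ∃ Q : (Fin (k + 1) → Fin T × Fin K) → (Fin T × Fin K → ℕ) → ℝ,
      Q = fun π H => (((IN N).filter (fun n : ℕ => (∀ x, Rgh δ N (ev (sh (f x) (M₀ * H x)) n)) ∧
        ∀ i, (ev (sh (f (π i)) (M₀ * H (π i))) n).toNat.Prime)).card : ℝ) := ⟨_, rfl⟩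
  -- the first exceptional set
  obtain ⟨E1, hE1d⟩ : ∃ E1, E1 = Pf.filter (fun H => C3 * X < Wf H) := ⟨_, rfl⟩
  have hE1c : (E1.card : ℝ) ≤ δ' / 3 * P := by
    refine markov Pf E1 Wf (a := C3 * X) (by positivity) ?_ ?_ ?_ ?_
    · rw [hE1d]; exact filter_subset _ _
    · intro H _
      rw [hWf]
      exact sum_nonneg fun n _ => sq_nonneg _
    · intro H hH
      rw [hE1d, mem_filter] at hH
      exact hH.2.le
    · have e1 : ∑ H ∈ Pf, Wf H ≤ C1 * N * (T₁ / Real.log N) ^ (T * K) := by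
        rw [hPf, hWf, hR, hb]
        convert kE1 using 4
      refine e1.trans (le_of_eq ?_)
      rw [mul_assoc, hXP, hC3]
      field_simp
  -- the second exceptional sets
  obtain ⟨E2, hE2d⟩ : ∃ E2 : (Fin (k + 1) → Fin T × Fin K) → Finset (Fin T × Fin K → ℕ),
      E2 = fun π => (Pf.filter (fun H => ¬ Gdf κ N (fun i => sh (f (π i)) (M₀ * H (π i))))).filter
        (fun H => c4 * X ≤ Q π H) := ⟨_, rfl⟩
  have hE2c : ∀ π, Function.Injective π → ((E2 π).card : ℝ) ≤
      δ' / (3 * ((T * K : ℕ) : ℝ) ^ (k + 1)) * P := by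
    intro π hπ
    refine markov (Pf.filter (fun H => ¬ Gdf κ N (fun i => sh (f (π i)) (M₀ * H (π i))))) (E2 π)
      (Q π) (a := c4 * X) (by positivity) ?_ ?_ ?_ ?_
    · rw [hE2d]; exact filter_subset _ _
    · intro H _
      rw [hQ]
      exact Nat.cast_nonneg _
    · intro H hH
      rw [hE2d] at hH
      exact (mem_filter.1 hH).2
    · have e1 : ∑ H ∈ Pf.filter (fun H => ¬ Gdf κ N (fun i => sh (f (π i)) (M₀ * H (π i)))), Q π H ≤
          C2 * Real.sqrt κ * N * (T₁ / Real.log N) ^ (T * K) := by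
        rw [hPf, hQ]
        convert kE2 π hπ using 4
      refine e1.trans ?_
      have e2 : C2 * Real.sqrt κ * N * (T₁ / Real.log N) ^ (T * K) =
          C2 * Real.sqrt κ * (X * P) := by
        rw [mul_assoc, hXP]
      rw [e2]
      calc C2 * Real.sqrt κ * (X * P) ≤ C2 * q * (X * P) :=
            mul_le_mul_of_nonneg_right (mul_le_mul_of_nonneg_left hκq hC2.le)
              (mul_nonneg hXp.le hPp)
        _ = c4 * X * (δ' / (3 * ((T * K : ℕ) : ℝ) ^ (k + 1)) * P) := by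
            rw [hq]
            field_simp
  -- the third exceptional set
  obtain ⟨E3, hE3d⟩ : ∃ E3 : (Fin T × Fin K) × (Fin T × Fin K) → Finset (Fin T × Fin K → ℕ),
      E3 = fun z => Pf.filter (fun H => sh (f z.1) (M₀ * H z.1) = sh (f z.2) (M₀ * H z.2)) :=
    ⟨_, rfl⟩
  have hT1p : 0 < (T₁ : ℝ) := by
    have : 0 ≤ 3 * ((T * K : ℕ) : ℝ) ^ 2 / δ' := by positivity
    linarith
  have hE3c : ∀ z : (Fin T × Fin K) × (Fin T × Fin K), z.1 ≠ z.2 → ((E3 z).card : ℝ) ≤ P / T₁ := by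
    intro z hz
    rw [le_div_iff₀ hT1p]
    have h3 := coll f hM₀ T₁ hz
    rw [Fintype.card_prod, Fintype.card_fin, Fintype.card_fin] at h3
    rw [hE3d, hPf, hP]
    exact_mod_cast h3
  obtain ⟨E3', hE3'⟩ : ∃ E3', E3' = (univ.filter (fun z : (Fin T × Fin K) × (Fin T × Fin K) =>
      z.1 ≠ z.2)).biUnion E3 := ⟨_, rfl⟩
  have hE3t : (E3'.card : ℝ) ≤ δ' / 3 * P := by
    have e1 : (E3'.card : ℝ) ≤ ∑ z ∈ univ.filter (fun z : (Fin T × Fin K) × (Fin T × Fin K) =>
        z.1 ≠ z.2), ((E3 z).card : ℝ) := by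
      rw [hE3']
      exact_mod_cast card_biUnion_le
    have e2 : ∑ z ∈ univ.filter (fun z : (Fin T × Fin K) × (Fin T × Fin K) =>
        z.1 ≠ z.2), ((E3 z).card : ℝ) ≤ ((T * K : ℕ) : ℝ) ^ 2 * (P / T₁) := by
      refine (sum_le_sum fun z hz => hE3c z (mem_filter.1 hz).2).trans ?_
      rw [sum_const, nsmul_eq_mul]
      refine mul_le_mul_of_nonneg_right ?_ (by positivity)
      have e5 : (univ.filter (fun z : (Fin T × Fin K) × (Fin T × Fin K) => z.1 ≠ z.2)).card ≤
          (T * K) ^ 2 := by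
        refine (card_filter_le _ _).trans (le_of_eq ?_)
        rw [card_univ, Fintype.card_prod, Fintype.card_prod, Fintype.card_fin, Fintype.card_fin, sq]
      exact_mod_cast e5
    refine (e1.trans e2).trans ?_
    have e3 : 3 * ((T * K : ℕ) : ℝ) ^ 2 / δ' ≤ T₁ := by linarith
    rw [div_le_iff₀ hδ'] at e3
    rw [← mul_div_assoc, div_le_iff₀ hT1p]
    nlinarith
  -- the failing configurations
  have hsub : (Fintype.piFinset (fun _ : Fin T × Fin K => range T₁)).filter (fun H =>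
      ¬ ∃ (S : Finset (Fin T)) (σ : Fin T → Fin K), M + 1 ≤ S.card ∧
        ∀ g : Fin (k + 1) → Fin T, Function.Injective g → (∀ i, g i ∈ S) →
          Gdf κ N (fun i => sh (f (g i, σ (g i))) (M₀ * H (g i, σ (g i))))) ⊆
      (E1 ∪ (univ.filter (fun π : Fin (k + 1) → Fin T × Fin K => Function.Injective π)).biUnion
        E2) ∪ E3' := by
    intro H hH
    rw [mem_filter] at hH
    obtain ⟨hHP, hbad⟩ := hH
    rw [← hPf] at hHP
    by_contra hcon
    rw [mem_union, mem_union, not_or, not_or] at hcon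
    obtain ⟨⟨hn1, hn2⟩, hn3⟩ := hcon
    have hW : Wf H ≤ C3 * X := by
      by_contra h
      apply hn1
      rw [hE1d, mem_filter]
      exact ⟨hHP, not_le.1 h⟩
    have hHr : ∀ x, H x < T₁ := by
      intro x
      rw [hPf, Fintype.mem_piFinset] at hHP
      exact mem_range.1 (hHP x)
    have hHi : Function.Injective (fun x => sh (f x) (M₀ * H x)) := by
      intro x x' hxx
      by_contra hne
      apply hn3
      rw [hE3', mem_biUnion]
      refine ⟨(x, x'), mem_filter.2 ⟨mem_univ _, hne⟩, ?_⟩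
      rw [hE3d]
      exact mem_filter.2 ⟨hHP, hxx⟩
    obtain ⟨S, σ, hS, hsum⟩ := hHIT (fun x => sh (f x) (M₀ * H x)) hHi
      (fun x => hf x (H x) (hHr x).le) (by
        intro p hp hpT
        obtain ⟨hpM, r, hr⟩ := hloc p hp hpT
        refine ⟨r, fun x hdv => hr x ?_⟩
        have h4 : (p : ℤ) ∣ ((M₀ * H x : ℕ) : ℤ) := by
          exact_mod_cast Dvd.dvd.mul_right hpM (H x)
        have h5 : (sh (f x) (M₀ * H x)).1 * r + (sh (f x) (M₀ * H x)).2 =
            ((f x).1 * r + (f x).2) + ((M₀ * H x : ℕ) : ℤ) := by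
          unfold sh
          ring
        rw [h5] at hdv
        exact (dvd_add_left h4).1 hdv)
    obtain ⟨G, hG⟩ : ∃ G, G = (IN N).filter
        (fun n : ℕ => (∀ x, Rgh δ N (ev (sh (f x) (M₀ * H x)) n)) ∧
            ∀ g ∈ S, (ev (sh (f (g, σ g)) (M₀ * H (g, σ g))) n).toNat.Prime) := ⟨_, rfl⟩
    have hsum' : c * X ≤ ∑ n ∈ G, b n := by
      rw [hX, hG, hb]
      convert hsum using 3
    have hGR : G ⊆ R H := by
      rw [hG, hR]
      intro n hn
      rw [mem_filter] at hn ⊢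
      exact ⟨hn.1, hn.2.1⟩
    have hGc : c4 * X ≤ (G.card : ℝ) := by
      have e1 : (∑ n ∈ G, b n) ^ 2 ≤ G.card * ∑ n ∈ G, b n ^ 2 := sq_sum_le_card_mul_sum_sq
      have e2 : ∑ n ∈ G, b n ^ 2 ≤ Wf H := by
        rw [hWf]
        exact sum_le_sum_of_subset_of_nonneg hGR fun n _ _ => sq_nonneg _
      have e3 : (c * X) ^ 2 ≤ (∑ n ∈ G, b n) ^ 2 :=
        pow_le_pow_left₀ (by positivity) hsum' 2
      have e4 : (c * X) ^ 2 ≤ G.card * (C3 * X) :=
        e3.trans (e1.trans (mul_le_mul_of_nonneg_left (e2.trans hW) (Nat.cast_nonneg _)))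
      rw [hc4, div_mul_eq_mul_div, div_le_iff₀ hC3p]
      have e5 : X * (c ^ 2 * X) ≤ X * (G.card * C3) := by nlinarith
      exact le_of_mul_le_mul_left e5 hXp
    apply hbad
    refine ⟨S, σ, hS, fun g hg hgS => ?_⟩
    by_contra hGd
    apply hn2
    rw [mem_biUnion]
    refine ⟨fun i => (g i, σ (g i)), ?_, ?_⟩
    · rw [mem_filter]
      exact ⟨mem_univ _, fun i j hij => hg (congrArg Prod.fst hij)⟩
    · rw [hE2d]
      refine mem_filter.2 ⟨mem_filter.2 ⟨hHP, hGd⟩, ?_⟩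
      refine hGc.trans ?_
      rw [hQ]
      have : G ⊆ (IN N).filter (fun n : ℕ =>
          (∀ x, Rgh δ N (ev (sh (f x) (M₀ * H x)) n)) ∧
          ∀ i, (ev (sh (f (g i, σ (g i))) (M₀ * H (g i, σ (g i)))) n).toNat.Prime) := by
        intro n hn
        rw [hG, mem_filter] at hn
        rw [mem_filter]
        exact ⟨hn.1, hn.2.1, fun i => hn.2.2 (g i) (hgS i)⟩
      exact Nat.cast_le.2 (card_le_card this)
  -- conclusion
  have hcard : (((E1 ∪ (univ.filter (fun π : Fin (k + 1) → Fin T × Fin K =>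
      Function.Injective π)).biUnion E2) ∪ E3').card : ℝ) ≤ δ' * (T₁ : ℝ) ^ (T * K) := by
    have e1 : (((E1 ∪ (univ.filter (fun π : Fin (k + 1) → Fin T × Fin K =>
        Function.Injective π)).biUnion E2) ∪ E3').card : ℝ) ≤ ((E1.card : ℝ) +
        ∑ π ∈ univ.filter (fun π : Fin (k + 1) → Fin T × Fin K => Function.Injective π),
          ((E2 π).card : ℝ)) + (E3'.card : ℝ) := by
      have := (card_union_le (E1 ∪ (univ.filter (fun π : Fin (k + 1) → Fin T × Fin K =>
        Function.Injective π)).biUnion E2) E3').trans (Nat.add_le_add_right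
        ((card_union_le E1 ((univ.filter (fun π : Fin (k + 1) → Fin T × Fin K =>
        Function.Injective π)).biUnion E2)).trans (Nat.add_le_add_left card_biUnion_le _)) _)
      exact_mod_cast this
    have e2 : ∑ π ∈ univ.filter (fun π : Fin (k + 1) → Fin T × Fin K => Function.Injective π),
        ((E2 π).card : ℝ) ≤ δ' / 3 * P := by
      have e3 : ∑ π ∈ univ.filter (fun π : Fin (k + 1) → Fin T × Fin K => Function.Injective π),
          ((E2 π).card : ℝ) ≤ ∑ π ∈ univ.filter (fun π : Fin (k + 1) → Fin T × Fin K =>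
            Function.Injective π), δ' / (3 * ((T * K : ℕ) : ℝ) ^ (k + 1)) * P :=
        sum_le_sum fun π hπ => hE2c π (mem_filter.1 hπ).2
      refine e3.trans ?_
      rw [sum_const, nsmul_eq_mul]
      have e4 : ((univ.filter (fun π : Fin (k + 1) → Fin T × Fin K =>
          Function.Injective π)).card : ℝ) ≤ ((T * K : ℕ) : ℝ) ^ (k + 1) := by
        have e5 : (univ.filter (fun π : Fin (k + 1) → Fin T × Fin K =>
            Function.Injective π)).card ≤ (T * K) ^ (k + 1) := by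
          refine (card_filter_le _ _).trans ?_
          rw [card_univ, Fintype.card_fun, Fintype.card_prod, Fintype.card_fin, Fintype.card_fin,
            Fintype.card_fin]
        exact_mod_cast e5
      calc _ ≤ ((T * K : ℕ) : ℝ) ^ (k + 1) * (δ' / (3 * ((T * K : ℕ) : ℝ) ^ (k + 1)) * P) :=
            mul_le_mul_of_nonneg_right e4 (by positivity)
        _ = δ' / 3 * P := by field_simp
    rw [← hP]
    linarith
  refine le_trans ?_ hcard
  exact_mod_cast card_le_card hsub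

end Pool.Agent.N31.RG_HITM2
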