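import Mathlib

/-!
Matrix units inside the restricted enveloping algebra of the Heisenberg algebra in characteristic
three.
-/

set_option autoImplicit false
set_option linter.unusedSectionVars false

namespace Pool.Agent.N31.RestrHeis

open Equiv

theorem S4zero {R : Type*} [CommRing R] (m : Fin 4 → Matrix (Fin 2) (Fin 2) R) :
    (∑ σ : Perm (Fin 4), ((Perm.sign σ : ℤˣ) : ℤ) • (List.ofFn fun i => m (σ i)).prod) = 0 := by
  simp only [Finset.univ_perm_fin_succ, ← Finset.univ_product_univ, Finset.sum_map, Finset.sum_product,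
    Fin.sum_univ_succ]
  have h1 : (swap (0 : Fin 3) 1) 2 = 2 := by decide
  have h2 : (swap (0 : Fin 3) 2) 1 = 1 := by decide
  have h3 : (swap (0 : Fin 4) 1) 2 = 2 := by decide
  have h4 : (swap (0 : Fin 4) 1) 3 = 3 := by decide
  have h5 : (swap (0 : Fin 4) 2) 1 = 1 := by decide
  have h6 : (swap (0 : Fin 4) 2) 3 = 3 := by decide
  have h7 : (swap (0 : Fin 4) 3) 1 = 1 := by decide
  have h8 : (swap (0 : Fin 4) 3) 2 = 2 := by decide
  have e1 : (Fin.succ (2 : Fin 3)) = 3 := rfl
  have e2 : (Fin.succ (1 : Fin 3)) = 2 := rfl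
  simp [List.ofFn_succ, h1, h2, h3, h4, h5, h6, h7, h8, e1, e2]
  generalize m 0 = A
  generalize m 1 = B
  generalize m 2 = C
  generalize m 3 = D
  ext i j
  fin_cases i <;> fin_cases j <;> simp [Matrix.mul_apply, Fin.sum_univ_two] <;> ring

/-! ### Relations in an associative ring of characteristic three -/

section ring

variable {V : Type*} [Ring V] [Algebra (ZMod 3) V]

theorem three_zero : (3 : V) = 0 := by
  have h : (3 : ZMod 3) = 0 := by decide
  have h2 := congrArg (algebraMap (ZMod 3) V) h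
  rw [map_zero, map_ofNat] at h2
  exact h2

structure Rel (X Y Z : V) : Prop where
  xy : X * Y = Y * X + Z
  zx : Z * X = X * Z
  zy : Z * Y = Y * Z
  x3 : X * X * X = 0
  y3 : Y * Y * Y = 0
  z3 : Z * Z * Z = Z

variable {X Y Z : V}

/-- the projection -/
def P (X Y Z : V) : V := X * X * Y * Y * (Z * Z + Z)

namespace Rel

variable (h : Rel X Y Z)
include h

theorem zP : Z * P X Y Z = P X Y Z := by
  have e : P X Y Z = X * X * Y * Y * (Z * Z + Z) := rfl
  have h1 : Z * (X * X * Y * Y) = (X * X * Y * Y) * Z := by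
    simp only [← mul_assoc]
    rw [h.zx, mul_assoc X Z X, h.zx]
    simp only [← mul_assoc]
    rw [mul_assoc (X * X) Z Y, h.zy]
    simp only [← mul_assoc]
    rw [mul_assoc (X * X * Y) Z Y, h.zy]
    simp only [← mul_assoc]
  rw [e, ← mul_assoc, h1, mul_assoc _ Z, mul_add, ← mul_assoc Z Z Z, h.z3, add_comm]

theorem xP : X * P X Y Z = 0 := by
  have e : P X Y Z = X * X * Y * Y * (Z * Z + Z) := rfl
  rw [e]
  simp only [← mul_assoc]
  rw [h.x3]
  simp

theorem zzy : (Z * Z + Z) * Y = Y * (Z * Z + Z) := by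
  rw [add_mul, mul_add, mul_assoc Z Z Y, h.zy, ← mul_assoc, h.zy, mul_assoc]

theorem zzx : (Z * Z + Z) * X = X * (Z * Z + Z) := by
  rw [add_mul, mul_add, mul_assoc Z Z X, h.zx, ← mul_assoc, h.zx, mul_assoc]

theorem Py : P X Y Z * Y = 0 := by
  have e : P X Y Z = X * X * Y * Y * (Z * Z + Z) := rfl
  rw [e, mul_assoc _ _ Y, h.zzy]
  have : X * X * Y * Y * (Y * (Z * Z + Z)) = X * X * (Y * Y * Y) * (Z * Z + Z) := by
    simp only [← mul_assoc]
  rw [this, h.y3]
  simp

theorem Pz : P X Y Z * Z = P X Y Z := by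
  have e : P X Y Z = X * X * Y * Y * (Z * Z + Z) := rfl
  rw [e, mul_assoc, add_mul, h.z3, add_comm]

theorem xxyy : X * X * Y * Y = Y * Y * X * X + 4 * (Y * X * Z) + 2 * (Z * Z) := by
  have h1 : X * Y * Y = Y * Y * X + 2 * (Y * Z) := by
    rw [h.xy, add_mul, mul_assoc Y X Y, h.xy, h.zy]
    noncomm_ring
  have h2 : X * X * Y * Y = X * (X * Y * Y) := by noncomm_ring
  rw [h2, h1]
  have h3 : X * (Y * Y * X + 2 * (Y * Z)) = (X * Y * Y) * X + 2 * (X * Y) * Z := by noncomm_ring
  rw [h3, h1, h.xy]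
  have h4 : (Y * Y * X + 2 * (Y * Z)) * X + 2 * (Y * X + Z) * Z =
      Y * Y * X * X + 2 * (Y * (Z * X)) + 2 * (Y * X * Z) + 2 * (Z * Z) := by noncomm_ring
  rw [h4, h.zx]
  noncomm_ring

theorem Psq : P X Y Z * P X Y Z = P X Y Z := by
  have e : P X Y Z = X * X * Y * Y * (Z * Z + Z) := rfl
  have e1 : P X Y Z * P X Y Z = P X Y Z * (X * X * Y * Y) * (Z * Z + Z) := by
    conv_lhs => rw [e]
    rw [← e]
    conv_lhs => arg 2; rw [e]
    rw [← mul_assoc]
  have e2 : P X Y Z * (X * X * Y * Y) = 2 * P X Y Z := by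
    rw [h.xxyy]
    have : P X Y Z * (Y * Y * X * X + 4 * (Y * X * Z) + 2 * (Z * Z)) =
        (P X Y Z * Y) * Y * X * X + 4 * ((P X Y Z * Y) * X * Z) + 2 * ((P X Y Z * Z) * Z) := by
      noncomm_ring
    rw [this, h.Py, h.Pz, h.Pz]
    simp
  rw [e1, e2]
  have e3 : 2 * P X Y Z * (Z * Z + Z) = 2 * ((P X Y Z * Z) * Z) + 2 * (P X Y Z * Z) := by
    noncomm_ring
  rw [e3, h.Pz, h.Pz]
  have e4 : 2 * P X Y Z + 2 * P X Y Z = P X Y Z + 3 * P X Y Z := by noncomm_ring
  rw [e4, three_zero]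
  simp

theorem PxyP : P X Y Z * X * Y * P X Y Z = P X Y Z := by
  have : P X Y Z * X * Y * P X Y Z = P X Y Z * (X * Y) * P X Y Z := by noncomm_ring
  rw [this, h.xy, mul_add, ← mul_assoc, h.Py, h.Pz]
  simp [h.Psq]

/-- two by two matrices as elements of the big ring -/
noncomputable def psi : Matrix (Fin 2) (Fin 2) (ZMod 3) →ₙₐ[ZMod 3] V where
  toFun m := m 0 0 • P X Y Z + m 0 1 • (P X Y Z * X) + m 1 0 • (Y * P X Y Z) +
    m 1 1 • (Y * P X Y Z * X)
  map_smul' := by
    intro c m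
    simp only [Matrix.smul_apply, smul_eq_mul, smul_add, mul_smul, MonoidHom.id_apply]
  map_zero' := by simp
  map_add' := by
    intro a b
    simp only [Matrix.add_apply, add_smul]
    abel
  map_mul' := by
    intro a b
    have q1 := h.Psq
    have q2 := h.Py
    have q3 := h.xP
    have q4 := h.PxyP
    simp only [Matrix.mul_apply, Fin.sum_univ_two, add_smul, mul_add, add_mul, smul_mul_smul_comm]
    generalize P X Y Z = p at *
    have r1 : p * (p * X) = p * X := by rw [← mul_assoc, q1]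
    have r2 : p * (Y * p) = 0 := by rw [← mul_assoc, q2, zero_mul]
    have r3 : p * (Y * p * X) = 0 := by rw [← mul_assoc, ← mul_assoc, q2]; simp
    have r4 : p * X * p = 0 := by rw [mul_assoc, q3, mul_zero]
    have r5 : p * X * (p * X) = 0 := by rw [← mul_assoc, r4, zero_mul]
    have r6 : p * X * (Y * p) = p := by rw [← mul_assoc, q4]
    have r7 : p * X * (Y * p * X) = p * X := by rw [← mul_assoc, r6]
    have r8 : Y * p * p = Y * p := by rw [mul_assoc, q1]
    have r9 : Y * p * (p * X) = Y * p * X := by rw [← mul_assoc, r8]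
    have r10 : Y * p * (Y * p) = 0 := by rw [mul_assoc, r2, mul_zero]
    have r11 : Y * p * (Y * p * X) = 0 := by rw [← mul_assoc, r10, zero_mul]
    have r12 : Y * p * X * p = 0 := by rw [mul_assoc, q3, mul_zero]
    have r13 : Y * p * X * (p * X) = 0 := by rw [← mul_assoc, r12, zero_mul]
    have r14 : Y * p * X * (Y * p) = Y * p := by
      rw [mul_assoc Y p X, mul_assoc, r6]
    have r15 : Y * p * X * (Y * p * X) = Y * p * X := by rw [← mul_assoc, r14]
    simp only [q1, r1, r2, r3, r4, r5, r6, r7, r8, r9, r10, r11, r12, r13, r14, r15, smul_zero,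
      add_zero, zero_add]
    abel

theorem S4_psi (m : Fin 4 → Matrix (Fin 2) (Fin 2) (ZMod 3)) :
    (∑ σ : Perm (Fin 4), ((Perm.sign σ : ℤˣ) : ℤ) •
      (List.ofFn fun i => h.psi (m (σ i))).prod) = 0 := by
  have h1 : ∀ σ : Perm (Fin 4), (List.ofFn fun i => h.psi (m (σ i))).prod =
      h.psi (List.ofFn fun i => m (σ i)).prod := by
    intro σ
    simp only [List.ofFn_succ, List.ofFn_zero, List.prod_cons, List.prod_nil, mul_one]
    simp only [map_mul]
  simp only [h1, ← map_zsmul, ← map_sum]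
  rw [S4zero, map_zero]

end Rel

end ring

end Pool.Agent.N31.RestrHeis
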