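import Pool.Agent.N31.RestrHeis

/-!
The Heisenberg Lie algebra over the field with three elements, as a restricted Lie algebra.
-/

set_option autoImplicit false

namespace Pool.Agent.N31.RestrHeis

open Equiv

attribute [local instance 100] LieRing.ofAssociativeRing

/-- the Heisenberg Lie algebra over the field with three elements -/
def H : Type := ZMod 3 × ZMod 3 × ZMod 3

instance : AddCommGroup H := inferInstanceAs (AddCommGroup (ZMod 3 × ZMod 3 × ZMod 3))
instance : Module (ZMod 3) H := inferInstanceAs (Module (ZMod 3) (ZMod 3 × ZMod 3 × ZMod 3))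

/-- constructor -/
def mkH (a b c : ZMod 3) : H := (a, b, c)
/-- first coordinate -/
def cx (v : H) : ZMod 3 := v.1
/-- second coordinate -/
def cy (v : H) : ZMod 3 := v.2.1
/-- third coordinate -/
def cz (v : H) : ZMod 3 := v.2.2

theorem H_ext {v w : H} (h1 : cx v = cx w) (h2 : cy v = cy w) (h3 : cz v = cz w) : v = w :=
  Prod.ext h1 (Prod.ext h2 h3)

@[simp] theorem cx_mk (a b c : ZMod 3) : cx (mkH a b c) = a := rfl
@[simp] theorem cy_mk (a b c : ZMod 3) : cy (mkH a b c) = b := rfl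
@[simp] theorem cz_mk (a b c : ZMod 3) : cz (mkH a b c) = c := rfl
@[simp] theorem cx_add (v w : H) : cx (v + w) = cx v + cx w := rfl
@[simp] theorem cy_add (v w : H) : cy (v + w) = cy v + cy w := rfl
@[simp] theorem cz_add (v w : H) : cz (v + w) = cz v + cz w := rfl
@[simp] theorem cx_smul (a : ZMod 3) (w : H) : cx (a • w) = a * cx w := rfl
@[simp] theorem cy_smul (a : ZMod 3) (w : H) : cy (a • w) = a * cy w := rfl
@[simp] theorem cz_smul (a : ZMod 3) (w : H) : cz (a • w) = a * cz w := rfl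
@[simp] theorem cx_zero : cx 0 = 0 := rfl
@[simp] theorem cy_zero : cy 0 = 0 := rfl
@[simp] theorem cz_zero : cz 0 = 0 := rfl

instance : Bracket H H := ⟨fun v w => mkH 0 0 (cx v * cy w - cx w * cy v)⟩

@[simp] theorem cx_lie (v w : H) : cx ⁅v, w⁆ = 0 := rfl
@[simp] theorem cy_lie (v w : H) : cy ⁅v, w⁆ = 0 := rfl
@[simp] theorem cz_lie (v w : H) : cz ⁅v, w⁆ = cx v * cy w - cx w * cy v := rfl

instance : LieRing H where
  add_lie x y z := by
    apply H_ext <;> simp; ring
  lie_add x y z := by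
    apply H_ext <;> simp; ring
  lie_self x := by
    apply H_ext <;> simp
  leibniz_lie x y z := by
    apply H_ext <;> simp

instance : LieAlgebra (ZMod 3) H where
  lie_smul t x y := by
    apply H_ext <;> simp; ring

theorem lie_lie_zero (x y w : H) : ⁅⁅x, y⁆, w⁆ = 0 := by
  apply H_ext
  · rfl
  · rfl
  · rw [cz_lie, cx_lie, cy_lie, cz_zero]
    ring

/-- the restricted structure -/
def fH (v : H) : H := mkH 0 0 (cz v)

theorem fH_add (v w : H) : fH (v + w) = fH v + fH w := by
  apply H_ext <;> simp [fH]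

theorem fH_smul (a : ZMod 3) (x : H) : fH (a • x) = a ^ 3 • fH x := by
  have h : a ^ 3 = a := by revert a; decide
  rw [h]
  apply H_ext <;> simp [fH]

theorem fH_ad (x y : H) : (LieAlgebra.ad (ZMod 3) H x ^ 3) y = ⁅fH x, y⁆ := by
  have h1 : ⁅fH x, y⁆ = 0 := by
    apply H_ext <;> simp [fH]
  have h2 : (LieAlgebra.ad (ZMod 3) H x ^ 3) y = ⁅x, ⁅x, ⁅x, y⁆⁆⁆ := by
    rw [pow_succ, pow_succ, pow_one]
    rfl
  rw [h1, h2]
  apply H_ext <;> simp

abbrev U : Type := UniversalEnvelopingAlgebra (ZMod 3) H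

theorem jac (x y : H) :
    UniversalEnvelopingAlgebra.ι (ZMod 3) (fH (x + y)) - UniversalEnvelopingAlgebra.ι (ZMod 3) (fH x)
        - UniversalEnvelopingAlgebra.ι (ZMod 3) (fH y)
      = (UniversalEnvelopingAlgebra.ι (ZMod 3) x + UniversalEnvelopingAlgebra.ι (ZMod 3) y) ^ 3
        - UniversalEnvelopingAlgebra.ι (ZMod 3) x ^ 3 - UniversalEnvelopingAlgebra.ι (ZMod 3) y ^ 3 := by
  have h0 : UniversalEnvelopingAlgebra.ι (ZMod 3) (fH (x + y)) -
      UniversalEnvelopingAlgebra.ι (ZMod 3) (fH x)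
        - UniversalEnvelopingAlgebra.ι (ZMod 3) (fH y) = 0 := by
    rw [fH_add, map_add]
    abel
  rw [h0]
  have hc : UniversalEnvelopingAlgebra.ι (ZMod 3) ⁅x, y⁆ =
      UniversalEnvelopingAlgebra.ι (ZMod 3) x * UniversalEnvelopingAlgebra.ι (ZMod 3) y -
      UniversalEnvelopingAlgebra.ι (ZMod 3) y * UniversalEnvelopingAlgebra.ι (ZMod 3) x := by
    rw [LieHom.map_lie, LieRing.of_associative_ring_bracket]
  have hca : UniversalEnvelopingAlgebra.ι (ZMod 3) ⁅x, y⁆ * UniversalEnvelopingAlgebra.ι (ZMod 3) x =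
      UniversalEnvelopingAlgebra.ι (ZMod 3) x * UniversalEnvelopingAlgebra.ι (ZMod 3) ⁅x, y⁆ := by
    rw [← sub_eq_zero, ← LieRing.of_associative_ring_bracket, ← LieHom.map_lie]
    rw [lie_lie_zero, map_zero]
  have hcb : UniversalEnvelopingAlgebra.ι (ZMod 3) ⁅x, y⁆ * UniversalEnvelopingAlgebra.ι (ZMod 3) y =
      UniversalEnvelopingAlgebra.ι (ZMod 3) y * UniversalEnvelopingAlgebra.ι (ZMod 3) ⁅x, y⁆ := by
    rw [← sub_eq_zero, ← LieRing.of_associative_ring_bracket, ← LieHom.map_lie]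
    rw [lie_lie_zero, map_zero]
  generalize UniversalEnvelopingAlgebra.ι (ZMod 3) ⁅x, y⁆ = c at *
  generalize UniversalEnvelopingAlgebra.ι (ZMod 3) x = a at *
  generalize UniversalEnvelopingAlgebra.ι (ZMod 3) y = b at *
  have hab : a * b = b * a + c := by rw [hc]; abel
  have h3 : (3 : UniversalEnvelopingAlgebra (ZMod 3) H) = 0 := three_zero
  have e1 : a * b * a = b * a * a + a * c := by rw [hab, add_mul, hca]
  have e2 : a * a * b = b * a * a + 2 * (a * c) := by
    rw [mul_assoc, hab, mul_add, ← mul_assoc, hab, add_mul, hca]; noncomm_ring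
  have e3 : b * a * b = b * b * a + b * c := by rw [mul_assoc, hab]; noncomm_ring
  have e4 : a * b * b = b * b * a + 2 * (b * c) := by
    rw [hab, add_mul, e3, hcb]; noncomm_ring
  have : (a + b) ^ 3 - a ^ 3 - b ^ 3 = (a * a * b + a * b * a + b * a * a) +
      (a * b * b + b * a * b + b * b * a) := by noncomm_ring
  rw [this, e1, e2, e3, e4]
  have : b * a * a + 2 * (a * c) + (b * a * a + a * c) + b * a * a +
      (b * b * a + 2 * (b * c) + (b * b * a + b * c) + b * b * a) =
      3 * (b * a * a + a * c + b * b * a + b * c) := by noncomm_ring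
  rw [this, h3, zero_mul]

/-- the relations of the restricted enveloping algebra -/
def rel (a b : UniversalEnvelopingAlgebra (ZMod 3) H) : Prop :=
  ∃ x : H, a = UniversalEnvelopingAlgebra.ι (ZMod 3) x ^ 3 ∧
    b = UniversalEnvelopingAlgebra.ι (ZMod 3) (fH x)

abbrev V : Type := RingQuot rel

/-- the canonical map -/
noncomputable def j (v : H) : V :=
  RingQuot.mkAlgHom (ZMod 3) rel (UniversalEnvelopingAlgebra.ι (ZMod 3) v)

theorem j_cube (v : H) : j v * j v * j v = j (fH v) := by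
  have h := RingQuot.mkAlgHom_rel (ZMod 3) (s := rel)
    (x := UniversalEnvelopingAlgebra.ι (ZMod 3) v ^ 3)
    (y := UniversalEnvelopingAlgebra.ι (ZMod 3) (fH v)) ⟨v, rfl, rfl⟩
  rw [map_pow] at h
  have h2 : j v ^ 3 = j (fH v) := h
  rw [← h2]
  noncomm_ring

theorem j_lie (v w : H) : j ⁅v, w⁆ = j v * j w - j w * j v := by
  unfold j
  rw [LieHom.map_lie, LieRing.of_associative_ring_bracket, map_sub, map_mul, map_mul]

theorem j_zero : j 0 = 0 := by
  unfold j
  rw [map_zero, map_zero]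

theorem rel_j : Rel (j (mkH 1 0 0)) (j (mkH 0 1 0)) (j (mkH 0 0 1)) where
  xy := by
    have : (⁅mkH 1 0 0, mkH 0 1 0⁆ : H) = mkH 0 0 1 := by apply H_ext <;> simp
    rw [← this, j_lie]
    abel
  zx := by
    have : (⁅mkH 0 0 1, mkH 1 0 0⁆ : H) = 0 := by apply H_ext <;> simp
    rw [← sub_eq_zero, ← j_lie, this, j_zero]
  zy := by
    have : (⁅mkH 0 0 1, mkH 0 1 0⁆ : H) = 0 := by apply H_ext <;> simp
    rw [← sub_eq_zero, ← j_lie, this, j_zero]
  x3 := by
    have : fH (mkH 1 0 0) = 0 := by apply H_ext <;> simp [fH]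
    rw [j_cube, this, j_zero]
  y3 := by
    have : fH (mkH 0 1 0) = 0 := by apply H_ext <;> simp [fH]
    rw [j_cube, this, j_zero]
  z3 := by
    have : fH (mkH 0 0 1) = mkH 0 0 1 := by apply H_ext <;> simp [fH]
    rw [j_cube, this]

/-! ### A representation by matrices -/

/-- the derivative -/
def Xm : Matrix (Fin 3) (Fin 3) (ZMod 3) := !![0, 1, 0; 0, 0, 2; 0, 0, 0]
/-- the multiplication by the variable -/
def Ym : Matrix (Fin 3) (Fin 3) (ZMod 3) := !![0, 0, 0; 1, 0, 0; 0, 1, 0]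

theorem XYm : Xm * Ym - Ym * Xm = 1 := by decide +kernel

/-- the representation of the Lie algebra -/
def repH : H →ₗ⁅ZMod 3⁆ Matrix (Fin 3) (Fin 3) (ZMod 3) where
  toFun v := cx v • Xm + cy v • Ym + cz v • 1
  map_add' v w := by
    simp only [cx_add, cy_add, cz_add, add_smul]; abel
  map_smul' a v := by
    simp only [cx_smul, cy_smul, cz_smul, mul_smul, smul_add, RingHom.id_apply]
  map_lie' := by
    intro v w
    simp only [cx_lie, cy_lie, cz_lie, LieRing.of_associative_ring_bracket, zero_smul, zero_add]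
    have h : (cx v • Xm + cy v • Ym + cz v • 1) * (cx w • Xm + cy w • Ym + cz w • 1) -
        (cx w • Xm + cy w • Ym + cz w • 1) * (cx v • Xm + cy v • Ym + cz v • 1) =
        (cx v * cy w - cx w * cy v) • (Xm * Ym - Ym * Xm) := by
      simp only [mul_add, add_mul, smul_mul_smul_comm, mul_one, one_mul, smul_sub, sub_smul]
      rw [mul_comm (cx w) (cx v), mul_comm (cy w) (cy v), mul_comm (cz w) (cz v),
        mul_comm (cz w) (cx v), mul_comm (cz w) (cy v), mul_comm (cx w) (cz v),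
        mul_comm (cy w) (cz v), mul_comm (cy w) (cx v), mul_comm (cx w) (cy v)]
      abel
    rw [h, XYm]

theorem repH_cube (v : H) : repH v ^ 3 = repH (fH v) := by
  have h : ∀ a b c : ZMod 3, (a • Xm + b • Ym + c • (1 : Matrix (Fin 3) (Fin 3) (ZMod 3))) *
      (a • Xm + b • Ym + c • 1) * (a • Xm + b • Ym + c • 1) =
      (0 : ZMod 3) • Xm + (0 : ZMod 3) • Ym + c • 1 := by
    decide +kernel
  rw [pow_succ, pow_succ, pow_one]
  exact h (cx v) (cy v) (cz v)

/-- the representation of the restricted enveloping algebra -/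
noncomputable def rep : V →ₐ[ZMod 3] Matrix (Fin 3) (Fin 3) (ZMod 3) :=
  RingQuot.liftAlgHom (ZMod 3) ⟨UniversalEnvelopingAlgebra.lift (ZMod 3) repH, by
    rintro a b ⟨x, rfl, rfl⟩
    rw [map_pow, UniversalEnvelopingAlgebra.lift_ι_apply, UniversalEnvelopingAlgebra.lift_ι_apply]
    exact repH_cube x⟩

theorem rep_j (v : H) : rep (j v) = cx v • Xm + cy v • Ym + cz v • 1 := by
  unfold rep j
  rw [RingQuot.liftAlgHom_mkAlgHom_apply, UniversalEnvelopingAlgebra.lift_ι_apply]
  rfl

end Pool.Agent.N31.RestrHeis
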