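import Pool.Agent.N31.RestrHeis2

/-!
A subalgebra of the restricted enveloping algebra of the Heisenberg algebra in characteristic three
that is isomorphic to the algebra of two by two matrices.
-/

set_option autoImplicit false

namespace Pool.Agent.N31.RestrHeis

open Equiv

/-- the subalgebra -/
noncomputable def RR : NonUnitalSubalgebra (ZMod 3) V := NonUnitalAlgHom.range rel_j.psi

theorem S4_RR (r : Fin 4 → V) (hr : ∀ i, r i ∈ RR) :
    (∑ σ : Perm (Fin 4), ((Perm.sign σ : ℤˣ) : ℤ) • (List.ofFn fun i => r (σ i)).prod) = 0 := by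
  have h : ∀ i, ∃ m : Matrix (Fin 2) (Fin 2) (ZMod 3), rel_j.psi m = r i := fun i => by
    obtain ⟨m, hm⟩ := hr i
    exact ⟨m, hm⟩
  choose m hm using h
  have : r = fun i => rel_j.psi (m i) := by funext i; exact (hm i).symm
  rw [this]
  exact rel_j.S4_psi m

/-- four matrices on which the standard polynomial does not vanish -/
def E4 : Fin 4 → Matrix (Fin 3) (Fin 3) (ZMod 3) :=
  ![!![1, 0, 0; 0, 0, 0; 0, 0, 0], !![0, 1, 0; 0, 0, 0; 0, 0, 0],
    !![0, 0, 0; 0, 1, 0; 0, 0, 0], !![0, 0, 0; 0, 0, 1; 0, 0, 0]]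

theorem E4_ne : (∑ σ : Perm (Fin 4), ((Perm.sign σ : ℤˣ) : ℤ) •
    (List.ofFn fun i => E4 (σ i)).prod) ≠ 0 := by
  decide +kernel

/-- the standard polynomial of degree four in the free algebra -/
noncomputable def phi : FreeAlgebra (ZMod 3) (Fin 4) :=
  ∑ σ : Perm (Fin 4), ((Perm.sign σ : ℤˣ) : ℤ) •
    (List.ofFn fun i => FreeAlgebra.ι (ZMod 3) (σ i)).prod

theorem lift_phi {A : Type*} [Ring A] [Algebra (ZMod 3) A] (r : Fin 4 → A) :
    FreeAlgebra.lift (ZMod 3) r phi =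
      ∑ σ : Perm (Fin 4), ((Perm.sign σ : ℤˣ) : ℤ) • (List.ofFn fun i => r (σ i)).prod := by
  unfold phi
  rw [map_sum]
  refine Finset.sum_congr rfl fun σ _ => ?_
  rw [map_zsmul, map_list_prod, List.map_ofFn]
  congr 3
  funext i
  simp

theorem phi_ne : phi ≠ 0 := by
  intro h
  apply E4_ne
  rw [← lift_phi, h, map_zero]

theorem rep_P : rep (P (j (mkH 1 0 0)) (j (mkH 0 1 0)) (j (mkH 0 0 1))) =
    !![1, 0, 0; 0, 0, 0; 0, 0, 0] := by
  unfold P
  simp only [map_mul, map_add, rep_j, cx_mk, cy_mk, cz_mk]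
  decide +kernel

theorem rep_comm : rep (rel_j.psi !![0, 1; 0, 0] * rel_j.psi !![0, 0; 1, 0] -
    rel_j.psi !![0, 0; 1, 0] * rel_j.psi !![0, 1; 0, 0]) =
    Matrix.diagonal ![1, -1, 0] := by
  rw [← map_mul rel_j.psi, ← map_mul rel_j.psi, ← map_sub rel_j.psi]
  have h : (!![0, 1; 0, 0] * !![0, 0; 1, 0] - !![0, 0; 1, 0] * !![0, 1; 0, 0] :
      Matrix (Fin 2) (Fin 2) (ZMod 3)) = !![1, 0; 0, -1] := by decide +kernel
  rw [h]
  change rep ((1 : ZMod 3) • P _ _ _ + (0 : ZMod 3) • (P _ _ _ * _) + (0 : ZMod 3) • (_ * P _ _ _) +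
    (-1 : ZMod 3) • (_ * P _ _ _ * _)) = _
  simp only [map_add, map_smul, map_mul, rep_P, rep_j, cx_mk, cy_mk, cz_mk]
  decide +kernel

theorem S2_not (t : ℕ) (h : ∀ r : Fin (2 * 1) → V, (∀ i, r i ∈ RR) →
    (∑ σ : Perm (Fin (2 * 1)), ((Perm.sign σ : ℤˣ) : ℤ) •
      (List.ofFn fun i => r (σ i)).prod) ^ t = 0) : False := by
  have h1 := h ![rel_j.psi !![0, 1; 0, 0], rel_j.psi !![0, 0; 1, 0]] (by
    intro i
    fin_cases i
    · exact ⟨_, rfl⟩
    · exact ⟨_, rfl⟩)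
  have h2 : (∑ σ : Perm (Fin (2 * 1)), ((Perm.sign σ : ℤˣ) : ℤ) •
      (List.ofFn fun i => (![rel_j.psi !![0, 1; 0, 0], rel_j.psi !![0, 0; 1, 0]] :
        Fin 2 → V) (σ i)).prod) =
      rel_j.psi !![0, 1; 0, 0] * rel_j.psi !![0, 0; 1, 0] -
        rel_j.psi !![0, 0; 1, 0] * rel_j.psi !![0, 1; 0, 0] := by
    have hu : (Finset.univ : Finset (Perm (Fin (2 * 1)))) = {1, swap 0 1} := by decide
    rw [hu, Finset.sum_pair (by decide)]
    have hs : (Perm.sign (swap (0 : Fin (2 * 1)) 1) : ℤˣ) = -1 := by decide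
    rw [hs]
    simp only [List.ofFn_succ, List.ofFn_zero, List.prod_cons, List.prod_nil, mul_one,
      Perm.sign_one, Units.val_one, one_smul, Units.val_neg, neg_smul, Perm.coe_one, id]
    rw [sub_eq_add_neg]
    rfl
  rw [h2] at h1
  have h3 := congrArg rep h1
  rw [map_pow, rep_comm, map_zero, Matrix.diagonal_pow] at h3
  have h4 := congrFun (congrFun h3 0) 0
  simp at h4

theorem main : ¬ (∀ (p : ℕ), p.Prime → ∀ (F : Type) [Field F] [CharP F p] (L : Type) [LieRing L]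
    [LieAlgebra F L] (f : L → L),
    (∀ (a : F) (x : L), f (a • x) = a ^ p • f x) →
    (∀ x y : L, (LieAlgebra.ad F L x ^ p) y = ⁅f x, y⁆) →
    (∀ x y : L,
      UniversalEnvelopingAlgebra.ι F (f (x + y)) - UniversalEnvelopingAlgebra.ι F (f x)
        - UniversalEnvelopingAlgebra.ι F (f y)
      = (UniversalEnvelopingAlgebra.ι F x + UniversalEnvelopingAlgebra.ι F y) ^ p
        - UniversalEnvelopingAlgebra.ι F x ^ p - UniversalEnvelopingAlgebra.ι F y ^ p) →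
    ∀ R : NonUnitalSubalgebra F (RingQuot (fun a b : UniversalEnvelopingAlgebra F L =>
        ∃ x : L, a = UniversalEnvelopingAlgebra.ι F x ^ p ∧ b = UniversalEnvelopingAlgebra.ι F (f x))),
    (∃ m : ℕ, ∃ φ : FreeAlgebra F (Fin m), φ ≠ 0 ∧
      ∀ r : Fin m → RingQuot (fun a b : UniversalEnvelopingAlgebra F L =>
        ∃ x : L, a = UniversalEnvelopingAlgebra.ι F x ^ p ∧ b = UniversalEnvelopingAlgebra.ι F (f x)),
        (∀ i, r i ∈ R) → FreeAlgebra.lift F r φ = 0) →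
    ∀ n : ℕ, 1 ≤ n →
      (∃ t : ℕ, 1 ≤ t ∧
        ∀ r : Fin (2 * n) → RingQuot (fun a b : UniversalEnvelopingAlgebra F L =>
          ∃ x : L, a = UniversalEnvelopingAlgebra.ι F x ^ p ∧ b = UniversalEnvelopingAlgebra.ι F (f x)),
          (∀ i, r i ∈ R) →
          (∑ σ : Equiv.Perm (Fin (2 * n)),
            ((Equiv.Perm.sign σ : ℤˣ) : ℤ) • (List.ofFn fun i => r (σ i)).prod) ^ t = 0) →
      (∀ m : ℕ, 1 ≤ m → m < n →
        ¬ ∃ t : ℕ, 1 ≤ t ∧
          ∀ r : Fin (2 * m) → RingQuot (fun a b : UniversalEnvelopingAlgebra F L =>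
            ∃ x : L, a = UniversalEnvelopingAlgebra.ι F x ^ p ∧ b = UniversalEnvelopingAlgebra.ι F (f x)),
            (∀ i, r i ∈ R) →
            (∑ σ : Equiv.Perm (Fin (2 * m)),
              ((Equiv.Perm.sign σ : ℤˣ) : ℤ) • (List.ofFn fun i => r (σ i)).prod) ^ t = 0) →
      ∃ k : ℕ, n = p ^ k) := by
  intro hall
  haveI : Fact (Nat.Prime 3) := ⟨Nat.prime_three⟩
  obtain ⟨k, hk⟩ := hall 3 Nat.prime_three (ZMod 3) H fH fH_smul fH_ad jac RR
    ⟨4, phi, phi_ne, fun r hr => by rw [lift_phi]; exact S4_RR r hr⟩ 2 (by norm_num)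
    ⟨1, le_rfl, fun r hr => by rw [pow_one]; exact S4_RR r hr⟩
    (by
      intro m h1 h2
      obtain rfl : m = 1 := by omega
      rintro ⟨t, -, ht⟩
      exact S2_not t ht)
  rcases k with _ | k
  · norm_num at hk
  · have : 3 ^ 1 ≤ 3 ^ (k + 1) := Nat.pow_le_pow_right (by norm_num) (by omega)
    omega

end Pool.Agent.N31.RestrHeis
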