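import Mathlib

/-!
The positive part of the Witt algebra over a field of characteristic zero: it satisfies the maximal
condition for subalgebras, it is residually nilpotent and infinite-dimensional.
-/

set_option autoImplicit false

namespace Pool.Agent.N31.WittPos

open Polynomial

universe u

section poly

variable {k : Type u} [Field k]

/-- The bracket. -/
noncomputable def br (f g : k[X]) : k[X] := X ^ 2 * (f * derivative g - derivative f * g)

theorem br_add_left (f g h : k[X]) : br (f + g) h = br f h + br g h := by
  simp only [br, derivative_add]; ring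

theorem br_add_right (f g h : k[X]) : br f (g + h) = br f g + br f h := by
  simp only [br, derivative_add]; ring

theorem br_self (f : k[X]) : br f f = 0 := by
  simp only [br]; ring

theorem br_leibniz (f g h : k[X]) : br f (br g h) = br (br f g) h + br g (br f h) := by
  simp only [br, derivative_mul, derivative_sub, derivative_X_pow]
  ring

theorem br_smul (t : k) (f g : k[X]) : br f (t • g) = t • br f g := by
  simp only [br, derivative_smul]
  simp only [smul_eq_C_mul]
  ring

theorem dvd_br {n : ℕ} (f g : k[X]) (hg : X ^ n ∣ g) : X ^ (n + 1) ∣ br f g := by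
  obtain ⟨q, rfl⟩ := hg
  have h2 : br f (X ^ n * q) = X ^ (n + 1) * (X * (f * derivative q -
      derivative f * q)) + (X ^ 2 * f * q) * derivative (X ^ n) := by
    simp only [br, derivative_mul]; ring
  rw [h2]
  refine dvd_add (Dvd.intro _ rfl) ?_
  rcases n with _ | n
  · simp
  · rw [derivative_X_pow]
    have : X ^ 2 * f * q * (C ((n + 1 : ℕ) : k) * X ^ (n + 1 - 1)) =
        X ^ (n + 1 + 1) * (f * q * C ((n + 1 : ℕ) : k)) := by
      rw [Nat.add_sub_cancel]; ring
    rw [this]
    exact Dvd.intro _ rfl

theorem dvd_smul_poly {n : ℕ} (c : k) (f : k[X]) (hf : X ^ n ∣ f) : X ^ n ∣ c • f := by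
  rw [smul_eq_C_mul]
  exact Dvd.dvd.mul_left hf _

/-- the coefficient in the top degree -/
theorem coeff_br {f g : k[X]} {m n : ℕ} (hf : f.natDegree ≤ m) (hg : g.natDegree ≤ n) :
    (br f g).coeff (m + n + 1) = f.coeff m * g.coeff n * ((n : k) - m) := by
  have e1 : (br f g).coeff (m + n + 1) = (X * (f * derivative g - derivative f * g)).coeff (m + n) := by
    have : br f g = X * (X * (f * derivative g - derivative f * g)) := by
      simp only [br]; ring
    rw [this, coeff_X_mul]
  have e2 : X * (f * derivative g - derivative f * g) =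
      f * (X * derivative g) - (X * derivative f) * g := by ring
  have d1 : (X * derivative g).natDegree ≤ n := by
    rw [natDegree_le_iff_coeff_eq_zero]
    intro N hN
    obtain ⟨N, rfl⟩ : ∃ M, N = M + 1 := ⟨N - 1, by omega⟩
    rw [coeff_X_mul, coeff_derivative, coeff_eq_zero_of_natDegree_lt (by omega), zero_mul]
  have d2 : (X * derivative f).natDegree ≤ m := by
    rw [natDegree_le_iff_coeff_eq_zero]
    intro N hN
    obtain ⟨N, rfl⟩ : ∃ M, N = M + 1 := ⟨N - 1, by omega⟩
    rw [coeff_X_mul, coeff_derivative, coeff_eq_zero_of_natDegree_lt (by omega), zero_mul]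
  have c1 : ∀ (h : k[X]) (i : ℕ), (X * derivative h).coeff i = h.coeff i * i := by
    intro h i
    rcases i with _ | i
    · simp
    · rw [coeff_X_mul, coeff_derivative]; push_cast; ring
  rw [e1, e2, coeff_sub, coeff_mul_add_eq_of_natDegree_le hf d1, coeff_mul_add_eq_of_natDegree_le d2 hg, c1, c1]
  ring

theorem natDegree_br_le {f g : k[X]} {m n : ℕ} (hf : f.natDegree ≤ m) (hg : g.natDegree ≤ n) :
    (br f g).natDegree ≤ m + n + 1 := by
  rw [natDegree_le_iff_coeff_eq_zero]
  intro N hN
  have h1 : ∀ a b : k[X], a.natDegree ≤ m → b.natDegree ≤ n → (X ^ 2 * (a * derivative b)).coeff N = 0 := by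
    intro a b ha hb
    obtain ⟨N, rfl⟩ : ∃ M, N = M + 2 := ⟨N - 2, by omega⟩
    rw [mul_comm, coeff_mul_X_pow]
    rcases eq_or_ne (derivative b) 0 with h0 | h0
    · rw [h0, mul_zero, coeff_zero]
    · apply coeff_eq_zero_of_natDegree_lt
      have h1 := natDegree_mul_le (p := a) (q := derivative b)
      have h2 : b.natDegree ≠ 0 := by
        intro h
        apply h0
        rw [eq_C_of_natDegree_eq_zero h, derivative_C]
      have h3 := natDegree_derivative_lt h2
      omega
  have h2 : ∀ a b : k[X], a.natDegree ≤ m → b.natDegree ≤ n → (X ^ 2 * (derivative a * b)).coeff N = 0 := by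
    intro a b ha hb
    obtain ⟨N, rfl⟩ : ∃ M, N = M + 2 := ⟨N - 2, by omega⟩
    rw [mul_comm, coeff_mul_X_pow]
    rcases eq_or_ne (derivative a) 0 with h0 | h0
    · rw [h0, zero_mul, coeff_zero]
    · apply coeff_eq_zero_of_natDegree_lt
      have h1 := natDegree_mul_le (p := derivative a) (q := b)
      have h2 : a.natDegree ≠ 0 := by
        intro h
        apply h0
        rw [eq_C_of_natDegree_eq_zero h, derivative_C]
      have h3 := natDegree_derivative_lt h2
      omega
  rw [br, mul_sub, coeff_sub, h1 f g hf hg, h2 f g hf hg, sub_zero]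

end poly

/-- The Lie algebra of all polynomials with the bracket `[f, g] = X ^ 2 (f g' - f' g)`, that is, the
Lie algebra of all derivations `X ^ 2 f d/dX`. -/
def W (k : Type u) [Field k] : Type u := k[X]

variable {k : Type u} [Field k]

noncomputable instance : AddCommGroup (W k) := inferInstanceAs (AddCommGroup k[X])
noncomputable instance : Module k (W k) := inferInstanceAs (Module k k[X])

noncomputable instance : Bracket (W k) (W k) := ⟨fun f g => br (k := k) f g⟩

noncomputable instance : LieRing (W k) where
  add_lie f g h := br_add_left (k := k) f g h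
  lie_add f g h := br_add_right (k := k) f g h
  lie_self f := br_self (k := k) f
  leibniz_lie f g h := br_leibniz (k := k) f g h

noncomputable instance : LieAlgebra k (W k) where
  lie_smul t f g := br_smul (k := k) t f g

theorem infinite_dim : ¬ FiniteDimensional k (W k) := by
  intro h
  have : Module.Finite k k[X] := h
  exact Polynomial.not_finite this

/-! ### Residual nilpotency -/

/-- the ideal of all polynomials divisible by `X ^ n` -/
noncomputable def idl (n : ℕ) : LieIdeal k (W k) where
  carrier := {f | (X : k[X]) ^ n ∣ (f : k[X])}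
  add_mem' := fun ha hb => dvd_add (α := k[X]) ha hb
  zero_mem' := dvd_zero (α := k[X]) _
  smul_mem' := fun c f hf => dvd_smul_poly (k := k) c f hf
  lie_mem := fun {f g} hg => (pow_dvd_pow (X : k[X]) (Nat.le_succ n)).trans (dvd_br (k := k) f g hg)

theorem mem_idl {n : ℕ} {f : W k} : f ∈ idl n ↔ (X : k[X]) ^ n ∣ (f : k[X]) := Iff.rfl

theorem lie_idl {n : ℕ} (f g : W k) (hg : g ∈ idl (k := k) n) : ⁅f, g⁆ ∈ idl (k := k) (n + 1) :=
  dvd_br (k := k) f g hg

theorem lcs_le (n : ℕ) : LieModule.lowerCentralSeries k (W k) (W k) n ≤ idl (k := k) n := by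
  induction n with
  | zero => intro f _; rw [mem_idl, pow_zero]; exact one_dvd _
  | succ n ih =>
    rw [LieModule.lowerCentralSeries_succ, LieSubmodule.lie_le_iff]
    intro x _ m hm
    exact lie_idl x m (ih hm)

theorem quot_nilpotent (n : ℕ) : LieRing.IsNilpotent (W k ⧸ idl (k := k) n) := by
  have h : LieModule.IsNilpotent (W k) (W k ⧸ idl (k := k) n) :=
    (LieModule.isNilpotent_quotient_iff k (W k) (W k) (idl n)).2 ⟨n, lcs_le n⟩
  rw [LieModule.isNilpotent_iff k] at h
  obtain ⟨j, hj⟩ := h
  rw [LieRing.IsNilpotent, LieModule.isNilpotent_iff k]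
  refine ⟨j, ?_⟩
  rw [← LieSubmodule.toSubmodule_inj, ← coe_lowerCentralSeries_ideal_quot_eq, hj]
  rfl

theorem not_mem_idl {f : W k} (hf : f ≠ 0) : f ∉ idl (k := k) (natDegree (R := k) f + 1) := by
  intro h
  rw [mem_idl] at h
  have h1 := Polynomial.natDegree_le_of_dvd h hf
  rw [natDegree_X_pow] at h1
  omega

/-! ### The maximal condition for subalgebras -/

/-- Increasing sequences of sets of natural numbers that are closed under `(a, b) ↦ a + b + 1` for
`a ≠ b` are eventually constant. -/
theorem sets_stable (S : ℕ → Set ℕ) (hS : Monotone S)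
    (hc : ∀ n, ∀ a ∈ S n, ∀ b ∈ S n, a ≠ b → a + b + 1 ∈ S n) : ∃ N, ∀ n ≥ N, S n = S N := by
  classical
  by_cases h0 : ∃ N, ∃ a, a ∈ S N
  · obtain ⟨N0, a, ha⟩ := h0
    -- the elements other than `a` in the residue class of `r`
    let A : ℕ → Set ℕ := fun r => {m | m ≠ a ∧ m % (a + 1) = r ∧ ∃ n, m ∈ S n}
    have hM : ∀ r, ∃ N, ∀ m ∈ A r, ∀ n ≥ N, m ∈ S n := by
      intro r
      by_cases hr : ∃ m, m ∈ A r
      · let m0 := Nat.find hr
        obtain ⟨h1, h2, n0, h3⟩ : m0 ∈ A r := Nat.find_spec hr
        refine ⟨max N0 n0, ?_⟩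
        intro m hm n hn
        have hle : m0 ≤ m := Nat.find_min' hr hm
        have han : a ∈ S n := hS ((le_max_left _ _).trans hn) ha
        have hmn : m0 ∈ S n := hS ((le_max_right _ _).trans hn) h3
        have key : ∀ j : ℕ, m0 + (a + 1) * j ∈ S n := by
          intro j
          induction j with
          | zero => simpa using hmn
          | succ j ih =>
            have hne : m0 + (a + 1) * j ≠ a := by
              rcases Nat.eq_zero_or_pos j with rfl | hj
              · simpa using h1
              · have : (a + 1) * 1 ≤ (a + 1) * j := Nat.mul_le_mul_left _ hj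
                omega
            have := hc n _ ih a han hne
            have e : m0 + (a + 1) * (j + 1) = m0 + (a + 1) * j + a + 1 := by ring
            rw [e]
            exact this
        have hmod : m % (a + 1) = m0 % (a + 1) := by rw [hm.2.1, h2]
        have hd : (a + 1) ∣ m - m0 := (Nat.modEq_iff_dvd' hle).1 hmod.symm
        obtain ⟨j, hj⟩ := hd
        have : m = m0 + (a + 1) * j := by omega
        rw [this]
        exact key j
      · exact ⟨0, fun m hm => absurd ⟨m, hm⟩ hr⟩
    choose f hf using hM
    refine ⟨max N0 ((Finset.range (a + 1)).sup f), fun n hn => ?_⟩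
    apply Set.Subset.antisymm
    · intro m hm
      by_cases hma : m = a
      · rw [hma]
        exact hS (le_max_left _ _) ha
      · have h1 : m ∈ A (m % (a + 1)) := ⟨hma, rfl, n, hm⟩
        apply hf _ m h1
        have : m % (a + 1) ∈ Finset.range (a + 1) :=
          Finset.mem_range.2 (Nat.mod_lt _ (Nat.succ_pos _))
        exact (Finset.le_sup (f := f) this).trans (le_max_right _ _)
    · exact hS hn
  · refine ⟨0, fun n _ => ?_⟩
    have : ∀ n, S n = ∅ := fun n => Set.eq_empty_iff_forall_notMem.2 fun a ha => h0 ⟨n, a, ha⟩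
    rw [this, this]

/-- the degrees of the nonzero elements of a subalgebra -/
def degs (H : LieSubalgebra k (W k)) : Set ℕ :=
  {n | ∃ f ∈ H, natDegree (R := k) f ≤ n ∧ coeff (R := k) f n ≠ 0}

theorem degs_mono {H K : LieSubalgebra k (W k)} (h : H ≤ K) : degs H ⊆ degs K := by
  rintro n ⟨f, hf, h1⟩
  exact ⟨f, h hf, h1⟩

theorem degs_closed [CharZero k] (H : LieSubalgebra k (W k)) :
    ∀ a ∈ degs H, ∀ b ∈ degs H, a ≠ b → a + b + 1 ∈ degs H := by
  rintro a ⟨f, hf, h1, h2⟩ b ⟨g, hg, h3, h4⟩ hab
  refine ⟨⁅f, g⁆, H.lie_mem hf hg, natDegree_br_le (k := k) h1 h3, ?_⟩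
  have h5 := coeff_br (k := k) h1 h3
  intro h6
  have h7 : coeff (R := k) f a * coeff (R := k) g b * ((b : k) - a) = 0 := h5.symm.trans h6
  have h8 : ((b : k) - a) ≠ 0 := by
    rw [sub_ne_zero]
    exact fun h => hab (Nat.cast_injective h).symm
  rcases mul_eq_zero.1 h7 with h9 | h9
  · rcases mul_eq_zero.1 h9 with h10 | h10
    · exact h2 h10
    · exact h4 h10
  · exact h8 h9

theorem le_of_degs {H K : LieSubalgebra k (W k)} (h : H ≤ K) (hd : degs K ⊆ degs H) : K ≤ H := by
  intro f hf
  have key : ∀ n : ℕ, ∀ f ∈ K, natDegree (R := k) f ≤ n → f ∈ H := by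
    intro n
    induction n using Nat.strong_induction_on with
    | _ n ih =>
      intro f hf hn
      by_cases h0 : coeff (R := k) f n = 0
      · rcases n with _ | n
        · have : f = 0 := by
            have h1 := eq_C_of_natDegree_le_zero (R := k) hn
            have h2 : coeff (R := k) f 0 = 0 := h0
            rw [h2, C_0] at h1
            exact h1
          rw [this]
          exact H.zero_mem
        · refine ih n (Nat.lt_succ_self n) f hf ?_
          rw [natDegree_le_iff_coeff_eq_zero]
          intro N hN
          rcases Nat.eq_or_lt_of_le (Nat.succ_le_of_lt hN) with h1 | h1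
          · rw [← h1]; exact h0
          · exact coeff_eq_zero_of_natDegree_lt (lt_of_le_of_lt hn h1)
      · obtain ⟨g, hg, h1, h2⟩ := hd ⟨f, hf, hn, h0⟩
        let c : k := coeff (R := k) f n * (coeff (R := k) g n)⁻¹
        have hfg : f - c • g ∈ K := K.sub_mem hf (K.smul_mem c (h hg))
        have hc0 : coeff (R := k) (f - c • g) n = 0 := by
          have e : coeff (R := k) (f - c • g) n = coeff (R := k) f n - c * coeff (R := k) g n := by
            exact (coeff_sub (R := k) f (c • g) n).trans (by
              rw [show coeff (R := k) (c • g) n = c * coeff (R := k) g n from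
                coeff_smul (S := k) (R := k) c g n])
          rw [e]
          change coeff (R := k) f n - coeff (R := k) f n * (coeff (R := k) g n)⁻¹ *
            coeff (R := k) g n = 0
          rw [mul_assoc, inv_mul_cancel₀ h2, mul_one, sub_self]
        have hdeg : natDegree (R := k) (f - c • g) ≤ n :=
          (natDegree_sub_le_of_le (R := k) hn
            ((natDegree_smul_le (R := k) (S := k) c g).trans h1)).trans (by simp)
        have hmem : f - c • g ∈ H := by
          rcases n with _ | n
          · have : f - c • g = 0 := by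
              have h1 := eq_C_of_natDegree_le_zero (R := k) hdeg
              rw [hc0, C_0] at h1
              exact h1
            rw [this]
            exact H.zero_mem
          · refine ih n (Nat.lt_succ_self n) _ hfg ?_
            rw [natDegree_le_iff_coeff_eq_zero]
            intro N hN
            rcases Nat.eq_or_lt_of_le (Nat.succ_le_of_lt hN) with h1 | h1
            · rw [← h1]; exact hc0
            · exact coeff_eq_zero_of_natDegree_lt (lt_of_le_of_lt hdeg h1)
        have : f = (f - c • g) + c • g := by abel
        rw [this]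
        exact H.add_mem hmem (H.smul_mem c hg)
  exact key _ f hf le_rfl

theorem max_cond [CharZero k] (H : ℕ → LieSubalgebra k (W k)) (hH : Monotone H) :
    ∃ N, ∀ n ≥ N, H n = H N := by
  obtain ⟨N, hN⟩ := sets_stable (fun n => degs (H n)) (fun a b h => degs_mono (hH h))
    (fun n => degs_closed (H n))
  refine ⟨N, fun n hn => le_antisymm (le_of_degs (hH hn) ?_) (hH hn)⟩
  exact (hN n hn).le

end Pool.Agent.N31.WittPos
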